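import Pool.Agent.Lib.MP_e46711_an.H76.Near

/-!
Module C3, the case where the two levels are far apart, and the assembly (helper76).
-/

open Set Filter Topology MeasureTheory
open scoped ContDiff

namespace Pool.Agent.Lib.MP_e46711_an.H76

/-- the two-level functional with a margin `t` -/
noncomputable def Psi (P : Par) (z : (ℝ × ℝ) × ℝ) : ℝ :=
  (1 - z.2) * (z.1.1 - z.1.2) ^ 2 - (P.L2 + z.2) * (P.M * z.1.1 ^ 2 + P.m * z.1.2 ^ 2)
    + P.L2 * (1 - z.2) * (max (P.M * |z.1.1| ^ (P.p + 1) + P.m * |z.1.2| ^ (P.p + 1) - z.2) 0)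
      ^ (2 / (P.p + 1)) - z.2

lemma continuous_Psi (P : Par) : Continuous (Psi P) := by
  unfold Psi
  have hp0 := P.hp0
  have h1 : Continuous fun z : (ℝ × ℝ) × ℝ => |z.1.1| ^ (P.p + 1) :=
    (continuous_abs.comp (continuous_fst.comp continuous_fst)).rpow_const
      (fun _ => Or.inr (by linarith))
  have h2 : Continuous fun z : (ℝ × ℝ) × ℝ => |z.1.2| ^ (P.p + 1) :=
    (continuous_abs.comp (continuous_snd.comp continuous_fst)).rpow_const
      (fun _ => Or.inr (by linarith))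
  have h3 : Continuous fun z : (ℝ × ℝ) × ℝ =>
      (max (P.M * |z.1.1| ^ (P.p + 1) + P.m * |z.1.2| ^ (P.p + 1) - z.2) 0) ^ (2 / (P.p + 1)) :=
    ((((continuous_const.mul h1).add (continuous_const.mul h2)).sub continuous_snd).max
      continuous_const).rpow_const (fun _ => Or.inr (by positivity))
  fun_prop

lemma Psi_zero_pos (P : Par) (hN : P.Net) {x y : ℝ} (hxy : x ≠ y) : 0 < Psi P ((x, y), 0) := by
  have hp0 := P.hp0
  have hM := P.hM
  have hm := P.hm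
  have hL2 : 0 < P.L2 := by linarith [P.hL0, P.hL01, P.hL12]
  have hB : 0 ≤ P.M * |x| ^ (P.p + 1) + P.m * |y| ^ (P.p + 1) := by positivity
  simp only [Psi, sub_zero, add_zero, one_mul, mul_one]
  rw [max_eq_left hB]
  rcases eq_or_ne |x| |y| with he | he
  · have hy : y = -x := by
      rcases abs_eq_abs.1 he with h | h
      · exact absurd h hxy
      · linarith
    subst hy
    have hx : x ≠ 0 := by rintro rfl; simp at hxy
    have hB' : P.M * |x| ^ (P.p + 1) + P.m * |-x| ^ (P.p + 1) = |x| ^ (P.p + 1) := by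
      rw [abs_neg, ← add_mul, P.hMm, one_mul]
    have hq : (|x| ^ (P.p + 1)) ^ (2 / (P.p + 1)) = x ^ 2 := by
      rw [← Real.rpow_mul (abs_nonneg _), mul_div_cancel₀ _ (by linarith : P.p + 1 ≠ 0)]
      rw [Real.rpow_two, sq_abs]
    rw [hB', hq]
    have : 0 < x ^ 2 := by positivity
    have hMm := P.hMm
    have : P.M * x ^ 2 + P.m * (-x) ^ 2 = x ^ 2 := by
      rw [neg_sq, ← add_mul, hMm, one_mul]
    rw [this]
    nlinarith
  · have h1 := hN.N3 |x| |y| (abs_nonneg _) (abs_nonneg _) he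
    have h2 : (|x| - |y|) ^ 2 ≤ (x - y) ^ 2 := by
      have e1 : (|x| - |y|) ^ 2 = x ^ 2 + y ^ 2 - 2 * |x * y| := by
        rw [abs_mul]
        nlinarith [sq_abs x, sq_abs y]
      rw [e1]
      nlinarith [le_abs_self (x * y)]
    simp only [sq_abs] at h1
    linarith

/-- compactness -/
lemma exists_margin (P : Par) (hN : P.Net) {η : ℝ} (hη : 0 < η) :
    ∃ t ∈ Ioo (0:ℝ) 1, ∀ x y, x ^ 2 + y ^ 2 = 1 → η ≤ |x - y| → 0 < Psi P ((x, y), t) := by
  set K : Set (ℝ × ℝ) := {z | z.1 ^ 2 + z.2 ^ 2 = 1 ∧ η ≤ |z.1 - z.2|} with hK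
  have hKc : IsCompact K := by
    apply (isCompact_Icc.prod isCompact_Icc : IsCompact (Icc (-1:ℝ) 1 ×ˢ Icc (-1:ℝ) 1)).of_isClosed_subset
    · have c1 : Continuous fun z : ℝ × ℝ => z.1 ^ 2 + z.2 ^ 2 := by fun_prop
      have c2 : Continuous fun z : ℝ × ℝ => |z.1 - z.2| := by fun_prop
      exact (isClosed_eq c1 continuous_const).inter (isClosed_le continuous_const c2)
    · rintro ⟨x, y⟩ ⟨h1, h2⟩
      simp only at h1
      exact ⟨⟨by nlinarith, by nlinarith⟩, ⟨by nlinarith, by nlinarith⟩⟩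
  have hopen : IsOpen {z | 0 < Psi P z} := isOpen_lt continuous_const (continuous_Psi P)
  have hsub : K ×ˢ {(0:ℝ)} ⊆ {z | 0 < Psi P z} := by
    rintro ⟨⟨x, y⟩, t⟩ ⟨hz, ht⟩
    simp only [mem_singleton_iff] at ht
    subst ht
    apply Psi_zero_pos P hN
    rintro rfl
    have := hz.2
    simp at this
    linarith
  obtain ⟨U, V, hU, hV, hKU, h0V, hUV⟩ := generalized_tube_lemma hKc isCompact_singleton hopen hsub
  have h0 : (0:ℝ) ∈ V := h0V rfl
  obtain ⟨r, hr, hball⟩ := Metric.isOpen_iff.1 hV 0 h0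
  refine ⟨min (r / 2) (1 / 2), ⟨by positivity, ?_⟩, fun x y h1 h2 => ?_⟩
  · exact lt_of_le_of_lt (min_le_right _ _) (by norm_num)
  · apply hUV
    refine ⟨hKU ⟨h1, h2⟩, hball ?_⟩
    rw [Metric.mem_ball, dist_zero_right, Real.norm_eq_abs, abs_of_pos (by positivity)]
    exact lt_of_le_of_lt (min_le_left _ _) (by linarith)

section
variable {P : Par} {ε : ℝ} {h k : ℝ → ℝ}

lemma A_le (hS : Small P ε) (hR : P.IsRing ε h) (hkc : Continuous k) (hk : KW P ε h k) :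
    ∫ s in (0:ℝ)..(P.ell ε), k s ≤ (1 + 3 * ε) / ε := by
  have hc : Continuous h := hR.smooth.continuous
  have h0 := hS.pos
  have hell := ell_pos hS
  have he2 : 0 < ε ^ 2 := by positivity
  have i1 : IntervalIntegrable k volume 0 (P.ell ε) := hkc.intervalIntegrable _ _
  have i2 : IntervalIntegrable h volume 0 (P.ell ε) := hc.intervalIntegrable _ _
  have a1 : ∫ s in (0:ℝ)..(P.ell ε), k s ≤ (1 + ε ^ 2) * ∫ s in (0:ℝ)..(P.ell ε), h s := by
    have := intervalIntegral.integral_mono_on hell.le i1 (i2.const_mul (1 + ε ^ 2))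
      (fun r hr => (hk r hr).2)
    rwa [intervalIntegral.integral_const_mul] at this
  have a2 := mass_le hS hR
  calc _ ≤ (1 + ε ^ 2) * ∫ s in (0:ℝ)..(P.ell ε), h s := a1
    _ ≤ (1 + ε ^ 2) * (1 / ε + 2) := by gcongr
    _ ≤ (1 + 3 * ε) / ε := by
      rw [le_div_iff₀ h0]
      have e : (1 + ε ^ 2) * (1 / ε + 2) * ε = 1 + 2 * ε + ε ^ 2 + 2 * ε ^ 3 := by
        field_simp; ring
      rw [e]
      have e3 : ε ^ 3 = ε * ε ^ 2 := by ring
      have e4 : ε ^ 2 ≤ ε * (1 / 4) := by nlinarith [hS.le1]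
      have e5 : ε * ε ^ 2 ≤ ε * (ε * (1 / 4)) := by gcongr
      nlinarith

lemma Sk_le (hS : Small P ε) (hR : P.IsRing ε h) (hkc : Continuous k) (hk : KW P ε h k)
    {u : ℝ → ℝ} (hu : Lip u 0 (P.ell ε)) :
    Sm k u 0 (P.ell ε) ≤ (1 + ε ^ 2) * Sm h u 0 (P.ell ε) := by
  have hc : Continuous h := hR.smooth.continuous
  have hell := ell_pos hS
  have hcu := lip_cont hu
  have m0 : (0:ℝ) ∈ Icc 0 (P.ell ε) := ⟨le_rfl, hell.le⟩
  have ml : P.ell ε ∈ Icc 0 (P.ell ε) := ⟨hell.le, le_rfl⟩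
  have hcS : ContinuousOn (fun r => k r * (u r) ^ 2) (Icc 0 (P.ell ε)) :=
    hkc.continuousOn.mul (hcu.pow 2)
  have hchS : ContinuousOn (fun r => h r * (u r) ^ 2) (Icc 0 (P.ell ε)) :=
    hc.continuousOn.mul (hcu.pow 2)
  have := intervalIntegral.integral_mono_on hell.le (co_int hcS m0 ml)
    ((co_int hchS m0 ml).const_mul (1 + ε ^ 2)) (fun r hr => by
      have a := (hk r hr).2
      calc k r * u r ^ 2 ≤ ((1 + ε ^ 2) * h r) * u r ^ 2 :=
            mul_le_mul_of_nonneg_right a (sq_nonneg _)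
        _ = (1 + ε ^ 2) * (h r * u r ^ 2) := by ring)
  rwa [intervalIntegral.integral_const_mul] at this

/-- the interpolation term from below -/
lemma interp_low {p ε t A Z B : ℝ} (hp0 : 0 < p) (hp1 : p < 1) (h0 : 0 < ε)
    (ht : 3 * ε ≤ t) (h13 : 3 * ε < 1) (hA : 0 < A) (hAle : A ≤ (1 + 3 * ε) / ε) (hZ0 : 0 ≤ Z)
    (hZ : (B - t) / ε ≤ Z) :
    (1 - t) * (max (B - t) 0) ^ (2 / (p + 1)) / ε
      ≤ A ^ ((p - 1) / (p + 1)) * Z ^ (2 / (p + 1)) := by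
  set q := 2 / (p + 1) with hq
  have hqq : (p - 1) / (p + 1) = 1 - q := by rw [hq]; field_simp; ring
  have hq1 : 1 < q := by rw [hq, lt_div_iff₀ (by linarith)]; linarith
  have hq2 : q < 2 := by rw [hq, div_lt_iff₀ (by linarith)]; linarith
  rw [hqq]
  set Bt := max (B - t) 0 with hBt
  have hBt0 : 0 ≤ Bt := le_max_right _ _
  have hZBt : Bt / ε ≤ Z := by
    rcases max_choice (B - t) 0 with hm' | hm' <;> rw [hBt, hm']
    · exact hZ
    · rw [zero_div]; exact hZ0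
  have i1 : ((1 + 3 * ε) / ε) ^ (1 - q) ≤ A ^ (1 - q) :=
    Real.rpow_le_rpow_of_nonpos hA hAle (by linarith)
  have i2 : (Bt / ε) ^ q ≤ Z ^ q := Real.rpow_le_rpow (by positivity) hZBt (by linarith)
  have i3 : ((1 + 3 * ε) / ε) ^ (1 - q) * (Bt / ε) ^ q = (1 + 3 * ε) ^ (1 - q) * Bt ^ q / ε := by
    rw [Real.div_rpow (by positivity) h0.le, Real.div_rpow hBt0 h0.le]
    have : ε ^ (1 - q) * ε ^ q = ε := by
      rw [← Real.rpow_add h0]; simp
    rw [div_mul_div_comm, this]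
  have i4 : 1 - t ≤ (1 + 3 * ε) ^ (1 - q) := by
    have j1 : (1 + 3 * ε) ^ (-1 : ℝ) ≤ (1 + 3 * ε) ^ (1 - q) :=
      Real.rpow_le_rpow_of_exponent_le (by linarith) (by linarith)
    rw [Real.rpow_neg_one] at j1
    have j2 : 1 - 3 * ε ≤ (1 + 3 * ε)⁻¹ := by
      rw [← one_div, le_div_iff₀ (by linarith)]
      nlinarith [sq_nonneg ε]
    linarith
  calc (1 - t) * Bt ^ q / ε ≤ (1 + 3 * ε) ^ (1 - q) * Bt ^ q / ε := by gcongr
    _ = ((1 + 3 * ε) / ε) ^ (1 - q) * (Bt / ε) ^ q := i3.symm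
    _ ≤ A ^ (1 - q) * Z ^ q := by gcongr

/-- lower bound of `Z` by the lumps -/
lemma Z_low {E C2 r t : ℝ} {u : ℝ → ℝ} (hS : Small P ε) (hR : P.IsRing ε h)
    (hkc : Continuous k) (hk : KW P ε h k)
    (hu : Lip u 0 (P.ell ε)) (ul : u (P.ell ε) = u 0) (hE : E = En h u 0 (P.ell ε))
    (hsmall : E ≤ C2 / ε) (hr1 : 0 ≤ r) (hrM : C2 / P.M ≤ r ^ 2) (hrm : C2 / P.m ≤ r ^ 2)
    (hx1 : |u 0| ≤ 1) (hy1 : |u (P.s4 ε)| ≤ 1) (e3 : 2 * r * ε + ε ^ 2 ≤ t) :
    (P.M * |u 0| ^ (P.p + 1) + P.m * |u (P.s4 ε)| ^ (P.p + 1) - t) / ε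
      ≤ Zm P.p k u 0 (P.ell ε) := by
  have hc : Continuous h := hR.smooth.continuous
  have h0 := hS.pos
  have hb := bp P hS.pos
  obtain ⟨b1, b2, b3, b4, b5, b6, b7, b8, b9, b10, b11, b12, b13, b14, b15⟩ := hb
  have hp0 := P.hp0
  have hp1 := P.hp1
  have hM := P.hM
  have hm := P.hm
  have hMm := P.hMm
  have hell := ell_pos hS
  have hkp := kw_pos hS hR hk
  have hcu := lip_cont hu
  set x := u 0 with hx
  set y := u (P.s4 ε) with hy
  have hE0 : 0 ≤ E := by rw [hE]; exact en_nonneg hell.le hR.pos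
  have m0 : (0:ℝ) ∈ Icc 0 (P.ell ε) := ⟨le_rfl, by linarith⟩
  have m1 : P.s1 ε ∈ Icc 0 (P.ell ε) := ⟨by linarith, by linarith⟩
  have m4 : P.s4 ε ∈ Icc 0 (P.ell ε) := ⟨by linarith, by linarith⟩
  have m5 : P.s5 ε ∈ Icc 0 (P.ell ε) := ⟨by linarith, by linarith⟩
  have m14 : P.s14 ε ∈ Icc 0 (P.ell ε) := ⟨by linarith, by linarith⟩
  have ml : P.ell ε ∈ Icc 0 (P.ell ε) := ⟨by linarith, by linarith⟩
  have he2 : 0 < ε ^ 2 := by positivity
  have hcZ : ContinuousOn (fun r => k r * |u r| ^ (P.p + 1)) (Icc 0 (P.ell ε)) :=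
    hkc.continuousOn.mul ((continuous_abs.comp_continuousOn hcu).rpow_const
      (fun _ _ => Or.inr (by linarith)))
  have hzn : ∀ r ∈ Icc 0 (P.ell ε), 0 ≤ k r * |u r| ^ (P.p + 1) := fun r hr =>
    mul_nonneg (hkp r hr).le (Real.rpow_nonneg (abs_nonneg _) _)
  have hMe : 0 < P.M / ε ^ 2 := div_pos hM he2
  have hme : 0 < P.m / ε ^ 2 := div_pos hm he2
  -- closeness on the lumps
  have clos : ∀ (N d v : ℝ), 0 < N → C2 / N ≤ r ^ 2 → v ^ 2 * (N / ε ^ 2) ≤ d * E → d ≤ ε → 0 ≤ d →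
      |v| ≤ r * ε := by
    intro N d v hN h1 h2 h3 h4
    apply abs_le_of_sq_le_sq _ (by positivity)
    have h5 : v ^ 2 * (N / ε ^ 2) ≤ C2 := by
      calc v ^ 2 * (N / ε ^ 2) ≤ d * E := h2
        _ ≤ ε * (C2 / ε) := by gcongr
        _ = C2 := by field_simp
    have h6 : v ^ 2 ≤ C2 / N * ε ^ 2 := by
      have h7 : v ^ 2 * (N / ε ^ 2) * (ε ^ 2 / N) ≤ C2 * (ε ^ 2 / N) := by gcongr
      have e : v ^ 2 * (N / ε ^ 2) * (ε ^ 2 / N) = v ^ 2 := by field_simp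
      rw [e] at h7
      calc v ^ 2 ≤ C2 * (ε ^ 2 / N) := h7
        _ = _ := by ring
    calc v ^ 2 ≤ C2 / N * ε ^ 2 := h6
      _ ≤ r ^ 2 * ε ^ 2 := by gcongr
      _ = (r * ε) ^ 2 := by ring
  have cH : ∀ s ∈ Icc 0 (P.s1 ε), |u s - x| ≤ r * ε := by
    intro s hs
    have q := cs' hc hR.pos (le_refl 0) hs.1 (by linarith [hs.2]) hMe
      (fun r hr => (hR.hH r ⟨hr.1, hr.2.trans hs.2⟩).ge) hu
    rw [← hE] at q
    have hs2 : s ≤ ε / 2 := hs.2
    exact clos P.M (s - 0) (u s - x) hM hrM q (by linarith) (by linarith [hs.1])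
  have cH' : ∀ s ∈ Icc (P.s14 ε) (P.ell ε), |u s - x| ≤ r * ε := by
    intro s hs
    have q := cs' hc hR.pos (by linarith [hs.1]) hs.2 (le_refl _) hMe
      (fun r hr => (hR.hH' r ⟨hs.1.trans hr.1, hr.2⟩).ge) hu
    rw [← hE] at q
    have hs2 : P.ell ε - s ≤ ε := by
      have := hs.1
      simp only [Par.s14, Par.ell] at this ⊢
      linarith
    have := clos P.M (P.ell ε - s) (u (P.ell ε) - u s) hM hrM q hs2 (by linarith [hs.2])
    rwa [ul, abs_sub_comm] at this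
  have cL : ∀ s ∈ Icc (P.s4 ε) (P.s5 ε), |u s - y| ≤ r * ε := by
    intro s hs
    have q := cs' hc hR.pos (by linarith) hs.1 (by linarith [hs.2]) hme
      (fun r hr => (hR.hL r ⟨hr.1, hr.2.trans hs.2⟩).ge) hu
    rw [← hE] at q
    have hs2 : s - P.s4 ε ≤ ε := by
      have := hs.2
      simp only [Par.s4, Par.s5] at this ⊢
      linarith
    exact clos P.m (s - P.s4 ε) (u s - y) hm hrm q hs2 (by linarith [hs.1])
  have hrε : 0 ≤ r * ε := by positivity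
  -- powers
  have pw : ∀ v z : ℝ, |z| ≤ 1 → |v - z| ≤ r * ε →
      |z| ^ (P.p + 1) - 2 * (r * ε) ≤ |v| ^ (P.p + 1) := by
    intro v z hz hv
    have h1 := tangent (q := P.p + 1) (by linarith) v z
    rw [show P.p + 1 - 1 = P.p by ring] at h1
    have h2 : |(P.p + 1) * sp P.p z * (v - z)| ≤ 2 * (r * ε) := by
      rw [abs_mul, abs_mul, abs_sp hp0, abs_of_pos (by linarith : 0 < P.p + 1)]
      have h3 : |z| ^ P.p ≤ 1 := Real.rpow_le_one (abs_nonneg _) hz hp0.le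
      have h4 : 0 ≤ |z| ^ P.p := Real.rpow_nonneg (abs_nonneg _) _
      have h5 : (P.p + 1) * |z| ^ P.p ≤ 2 := by nlinarith
      exact mul_le_mul h5 hv (abs_nonneg _) (by norm_num)
    have := (abs_le.1 h2).1
    linarith
  set B := P.M * |x| ^ (P.p + 1) + P.m * |y| ^ (P.p + 1) with hB
  have hxp : |x| ^ (P.p + 1) ≤ 1 := Real.rpow_le_one (abs_nonneg _) hx1 (by linarith)
  have hyp : |y| ^ (P.p + 1) ≤ 1 := Real.rpow_le_one (abs_nonneg _) hy1 (by linarith)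
  have hB1 : B ≤ 1 := by rw [hB]; nlinarith
  have hle : ε ^ 2 ≤ 1 / 16 := by nlinarith [hS.le1]
  have h1e : 0 < 1 - ε ^ 2 := by linarith
  have kl : ∀ (N z : ℝ) (s : ℝ), s ∈ Icc 0 (P.ell ε) → 0 < N → h s = N / ε ^ 2 →
      |z| ^ (P.p + 1) - 2 * (r * ε) ≤ |u s| ^ (P.p + 1) →
      (1 - ε ^ 2) * (N / ε ^ 2) * (|z| ^ (P.p + 1) - 2 * (r * ε)) ≤ k s * |u s| ^ (P.p + 1) := by
    intro N z s hs hN hhs h1
    have h2 := (hk s hs).1
    rw [hhs] at h2
    have h3 : 0 ≤ |u s| ^ (P.p + 1) := Real.rpow_nonneg (abs_nonneg _) _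
    have h4 : 0 ≤ (1 - ε ^ 2) * (N / ε ^ 2) := by positivity
    calc (1 - ε ^ 2) * (N / ε ^ 2) * (|z| ^ (P.p + 1) - 2 * (r * ε))
        ≤ (1 - ε ^ 2) * (N / ε ^ 2) * |u s| ^ (P.p + 1) := mul_le_mul_of_nonneg_left h1 h4
      _ ≤ k s * |u s| ^ (P.p + 1) := mul_le_mul_of_nonneg_right h2 h3
  have z1 := le_int b1.le (co_int hcZ m0 m1) (fun s hs => kl P.M x s
    ⟨hs.1, by linarith [hs.2]⟩ hM (hR.hH s hs) (pw _ _ hx1 (cH s hs)))
  have z2 := le_int b5.le (co_int hcZ m4 m5) (fun s hs => kl P.m y s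
    ⟨by linarith [hs.1], by linarith [hs.2]⟩ hm (hR.hL s hs) (pw _ _ hy1 (cL s hs)))
  have z3 := le_int b15.le (co_int hcZ m14 ml) (fun s hs => kl P.M x s
    ⟨by linarith [hs.1], hs.2⟩ hM (hR.hH' s hs) (pw _ _ hx1 (cH' s hs)))
  have hZsplit : Zm P.p k u 0 (P.ell ε) = (∫ s in (0:ℝ)..(P.s1 ε), k s * |u s| ^ (P.p + 1))
      + (∫ s in (P.s1 ε)..(P.s4 ε), k s * |u s| ^ (P.p + 1))
      + (∫ s in (P.s4 ε)..(P.s5 ε), k s * |u s| ^ (P.p + 1))
      + (∫ s in (P.s5 ε)..(P.s14 ε), k s * |u s| ^ (P.p + 1))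
      + (∫ s in (P.s14 ε)..(P.ell ε), k s * |u s| ^ (P.p + 1)) := by
    rw [Zm, int_split hcZ m0 m14 ml, int_split hcZ m0 m5 m14, int_split hcZ m0 m4 m5,
      int_split hcZ m0 m1 m4]
  have z4 : 0 ≤ ∫ s in (P.s1 ε)..(P.s4 ε), k s * |u s| ^ (P.p + 1) :=
    int_nonneg (by linarith) fun s hs => hzn s ⟨by linarith [hs.1], by linarith [hs.2]⟩
  have z5 : 0 ≤ ∫ s in (P.s5 ε)..(P.s14 ε), k s * |u s| ^ (P.p + 1) :=
    int_nonneg (by linarith) fun s hs => hzn s ⟨by linarith [hs.1], by linarith [hs.2]⟩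
  have f1 : (1 - ε ^ 2) * (P.M / ε ^ 2) * (|x| ^ (P.p + 1) - 2 * (r * ε)) * (P.s1 ε - 0)
      + (1 - ε ^ 2) * (P.m / ε ^ 2) * (|y| ^ (P.p + 1) - 2 * (r * ε)) * (P.s5 ε - P.s4 ε)
      + (1 - ε ^ 2) * (P.M / ε ^ 2) * (|x| ^ (P.p + 1) - 2 * (r * ε)) * (P.ell ε - P.s14 ε)
      = (1 - ε ^ 2) * (B - (P.M + P.m) * (2 * (r * ε))) / ε := by
    simp only [Par.s1, Par.s4, Par.s5, Par.s14, Par.ell, hB]
    field_simp
    ring
  rw [hMm, one_mul] at f1
  have f2 : (B - t) / ε ≤ (1 - ε ^ 2) * (B - 2 * (r * ε)) / ε := by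
    apply div_le_div_of_nonneg_right _ h0.le
    have : ε ^ 2 * (B - 2 * (r * ε)) ≤ ε ^ 2 * 1 := by
      apply mul_le_mul_of_nonneg_left _ he2.le
      linarith
    linarith
  linarith

lemma far_core {t δ : ℝ} {u : ℝ → ℝ} (hS : Small P ε) (hR : P.IsRing ε h)
    (hkc : Continuous k) (hk : KW P ε h k) (ht0 : 0 < t) (ht1 : t < 1) (hδ : 0 < δ)
    (hu : Lip u 0 (P.ell ε)) (ul : u (P.ell ε) = u 0)
    (hQF : δ * En h u 0 (P.ell ε) + ((1 - t) * (u 0 - u (P.s4 ε)) ^ 2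
        - (P.L2 + t) * (P.M * u 0 ^ 2 + P.m * u (P.s4 ε) ^ 2)) / ε
      ≤ En h u 0 (P.ell ε) - P.L2 * Sm h u 0 (P.ell ε))
    (hnorm : u 0 ^ 2 + u (P.s4 ε) ^ 2 = 1)
    (hPsi : 0 < Psi P ((u 0, u (P.s4 ε)), t))
    (e1 : ε ^ 2 ≤ δ / 2)
    (e2 : ε ^ 2 * (4 * (P.L2 + 1) / δ + P.L2 + 1) ≤ t)
    (e3 : 2 * (1 + 4 * (P.L2 + 1) / δ / P.M + 4 * (P.L2 + 1) / δ / P.m) * ε + ε ^ 2 ≤ t)
    (e4 : 3 * ε ≤ t) :
    Goal P ε h k u := by
  have hc : Continuous h := hR.smooth.continuous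
  have h0 := hS.pos
  have hb := bp P hS.pos
  obtain ⟨b1, b2, b3, b4, b5, b6, b7, b8, b9, b10, b11, b12, b13, b14, b15⟩ := hb
  have hp0 := P.hp0
  have hp1 := P.hp1
  have hM := P.hM
  have hm := P.hm
  have hMm := P.hMm
  have hL2 : 0 < P.L2 := by linarith [P.hL0, P.hL01, P.hL12]
  have hell := ell_pos hS
  have hkp := kw_pos hS hR hk
  have hcu := lip_cont hu
  set x := u 0 with hx
  set y := u (P.s4 ε) with hy
  set E := En h u 0 (P.ell ε) with hE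
  have hE0 : 0 ≤ E := en_nonneg hell.le hR.pos
  have m0 : (0:ℝ) ∈ Icc 0 (P.ell ε) := ⟨le_rfl, by linarith⟩
  have m1 : P.s1 ε ∈ Icc 0 (P.ell ε) := ⟨by linarith, by linarith⟩
  have m4 : P.s4 ε ∈ Icc 0 (P.ell ε) := ⟨by linarith, by linarith⟩
  have m5 : P.s5 ε ∈ Icc 0 (P.ell ε) := ⟨by linarith, by linarith⟩
  have m14 : P.s14 ε ∈ Icc 0 (P.ell ε) := ⟨by linarith, by linarith⟩
  have ml : P.ell ε ∈ Icc 0 (P.ell ε) := ⟨by linarith, by linarith⟩
  have hx1 : |x| ≤ 1 := by rw [abs_le]; constructor <;> nlinarith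
  have hy1 : |y| ≤ 1 := by rw [abs_le]; constructor <;> nlinarith
  have he2 : 0 < ε ^ 2 := by positivity
  -- masses
  set A := ∫ s in (0:ℝ)..(P.ell ε), k s with hA
  have hApos : 0 < A :=
    intervalIntegral.intervalIntegral_pos_of_pos_on (hkc.intervalIntegrable _ _)
      (fun s hs => hkp s (Ioo_subset_Icc_self hs)) hell
  set Z := Zm P.p k u 0 (P.ell ε) with hZ
  have hzn : ∀ r ∈ Icc 0 (P.ell ε), 0 ≤ k r * |u r| ^ (P.p + 1) := fun r hr =>
    mul_nonneg (hkp r hr).le (Real.rpow_nonneg (abs_nonneg _) _)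
  have hZ0 : 0 ≤ Z := int_nonneg hell.le hzn
  set S := Sm h u 0 (P.ell ε) with hSdef
  set Sk := Sm k u 0 (P.ell ε) with hSk
  have hS0 : 0 ≤ S := int_nonneg hell.le fun r _ => mul_nonneg (hR.pos r).le (sq_nonneg _)
  have hSkS : Sk ≤ (1 + ε ^ 2) * S := Sk_le hS hR hkc hk hu
  set Q := (1 - t) * (x - y) ^ 2 - (P.L2 + t) * (P.M * x ^ 2 + P.m * y ^ 2) with hQ
  have hQlow : -(P.L2 + 1) ≤ Q := by
    have a1 : P.M * x ^ 2 + P.m * y ^ 2 ≤ 1 := by nlinarith [sq_nonneg x, sq_nonneg y]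
    have a2 : 0 ≤ P.M * x ^ 2 + P.m * y ^ 2 := by positivity
    have a3 : 0 ≤ (1 - t) * (x - y) ^ 2 := mul_nonneg (by linarith) (sq_nonneg _)
    have a4 : (P.L2 + t) * (P.M * x ^ 2 + P.m * y ^ 2) ≤ (P.L2 + 1) * 1 := by
      apply mul_le_mul (by linarith) a1 a2 (by linarith)
    rw [hQ]; linarith
  have hAZ0 : 0 ≤ A ^ ((P.p - 1) / (P.p + 1)) * Z ^ (2 / (P.p + 1)) := by positivity
  unfold Goal
  rw [← hE, ← hA, ← hZ, ← hSk]
  -- first case: large energy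
  rcases le_total (4 * (P.L2 + 1) / δ / ε) E with hbig | hsmall
  · have hL2S : P.L2 * S ≤ (1 - δ) * E + (P.L2 + 1) / ε := by
      have : -((P.L2 + 1) / ε) ≤ Q / ε := by
        rw [← neg_div]; exact div_le_div_of_nonneg_right hQlow h0.le
      linarith
    have h2 : 4 * (P.L2 + 1) / ε ≤ δ * E := by
      have := mul_le_mul_of_nonneg_left hbig hδ.le
      calc 4 * (P.L2 + 1) / ε = δ * (4 * (P.L2 + 1) / δ / ε) := by field_simp
        _ ≤ _ := this
    have hstep : P.L2 * Sk ≤ E := by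
      have hle1 : ε ^ 2 ≤ 1 := by nlinarith [hS.le1]
      have hpos : 0 ≤ (P.L2 + 1) / ε := by positivity
      calc P.L2 * Sk ≤ P.L2 * ((1 + ε ^ 2) * S) := by gcongr
        _ = P.L2 * S + ε ^ 2 * (P.L2 * S) := by ring
        _ ≤ ((1 - δ) * E + (P.L2 + 1) / ε) + ε ^ 2 * ((1 - δ) * E + (P.L2 + 1) / ε) := by gcongr
        _ ≤ ((1 - δ) * E + (P.L2 + 1) / ε) + (ε ^ 2 * E + (P.L2 + 1) / ε) := by
            have q1 : ε ^ 2 * ((1 - δ) * E) ≤ ε ^ 2 * E := by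
              apply mul_le_mul_of_nonneg_left _ he2.le
              nlinarith
            have q2 : ε ^ 2 * ((P.L2 + 1) / ε) ≤ (P.L2 + 1) / ε :=
              mul_le_of_le_one_left hpos hle1
            rw [mul_add]
            linarith
        _ ≤ ((1 - δ) * E + (P.L2 + 1) / ε) + (δ / 2 * E + (P.L2 + 1) / ε) := by gcongr
        _ ≤ E := by
            have : 4 * (P.L2 + 1) / ε = 4 * ((P.L2 + 1) / ε) := by ring
            rw [this] at h2
            nlinarith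
    calc P.L2 * (Sk - A ^ ((P.p - 1) / (P.p + 1)) * Z ^ (2 / (P.p + 1))) ≤ P.L2 * Sk := by
          gcongr; linarith
      _ ≤ E := hstep
  -- second case: small energy
  set C2 := 4 * (P.L2 + 1) / δ with hC2
  have hC2pos : 0 < C2 := by positivity
  set r := 1 + C2 / P.M + C2 / P.m with hr
  have hC2M : 0 < C2 / P.M := by positivity
  have hC2m : 0 < C2 / P.m := by positivity
  have hr1 : 1 ≤ r := by rw [hr]; linarith
  have hrM : C2 / P.M ≤ r ^ 2 := by nlinarith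
  have hrm : C2 / P.m ≤ r ^ 2 := by nlinarith
  have hZlow := Z_low hS hR hkc hk hu ul hE hsmall (by linarith : 0 ≤ r) hrM hrm hx1 hy1 e3
  have hinterp := interp_low hp0 hp1 h0 e4 (by linarith) hApos (A_le hS hR hkc hk) hZ0 hZlow
  rw [← hx, ← hy] at hinterp
  set B := P.M * |x| ^ (P.p + 1) + P.m * |y| ^ (P.p + 1) with hB
  set Bt := max (B - t) 0 with hBt
  set q := 2 / (P.p + 1) with hq
  -- conclusion
  have hPsi' : 0 < Q + P.L2 * (1 - t) * Bt ^ q - t := by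
    have : Psi P ((x, y), t) = Q + P.L2 * (1 - t) * Bt ^ q - t := by
      simp only [Psi, hQ, hBt, hB, hq]
    rw [← this]; exact hPsi
  have hL2S : P.L2 * S ≤ C2 / ε + (P.L2 + 1) / ε := by
    have : -((P.L2 + 1) / ε) ≤ Q / ε := by
      rw [← neg_div]; exact div_le_div_of_nonneg_right hQlow h0.le
    have : 0 ≤ δ * E := by positivity
    linarith
  have hcl : P.L2 * Sk ≤ E - Q / ε + t / ε := by
    have a1 : P.L2 * S ≤ E - Q / ε := by
      have : 0 ≤ δ * E := by positivity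
      linarith
    have a2 : ε ^ 2 * (P.L2 * S) ≤ t / ε := by
      calc ε ^ 2 * (P.L2 * S) ≤ ε ^ 2 * (C2 / ε + (P.L2 + 1) / ε) := by gcongr
        _ = ε ^ 2 * (C2 + P.L2 + 1) / ε := by ring
        _ ≤ t / ε := by gcongr
    calc P.L2 * Sk ≤ P.L2 * ((1 + ε ^ 2) * S) := by gcongr
      _ = P.L2 * S + ε ^ 2 * (P.L2 * S) := by ring
      _ ≤ _ := by linarith
  have hfin : P.L2 * ((1 - t) * Bt ^ q / ε) ≤ P.L2 * (A ^ ((P.p - 1) / (P.p + 1)) * Z ^ q) :=
    mul_le_mul_of_nonneg_left hinterp hL2.le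
  have : 0 ≤ (Q + P.L2 * (1 - t) * Bt ^ q - t) / ε := by positivity
  have e : (Q + P.L2 * (1 - t) * Bt ^ q - t) / ε
      = Q / ε + P.L2 * ((1 - t) * Bt ^ q / ε) - t / ε := by ring
  rw [e] at this
  rw [mul_sub]
  linarith

/-- scaling -/
lemma goal_of_scale (hS : Small P ε) (hR : P.IsRing ε h) (hk : KW P ε h k) {c : ℝ}
    (hc : c ≠ 0) {u : ℝ → ℝ} (hg : Goal P ε h k (fun s => c * u s)) : Goal P ε h k u := by
  have hp0 := P.hp0
  have hell := ell_pos hS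
  have hkp := kw_pos hS hR hk
  have hZ0 : 0 ≤ Zm P.p k u 0 (P.ell ε) := int_nonneg hell.le fun r hr =>
    mul_nonneg (hkp r hr).le (Real.rpow_nonneg (abs_nonneg _) _)
  unfold Goal at hg ⊢
  have e1 : Sm k (fun s => c * u s) 0 (P.ell ε) = c ^ 2 * Sm k u 0 (P.ell ε) := by
    simp only [Sm]
    rw [← intervalIntegral.integral_const_mul]
    congr 1; ext r; ring
  have e2 : Zm P.p k (fun s => c * u s) 0 (P.ell ε) = |c| ^ (P.p + 1) * Zm P.p k u 0 (P.ell ε) := by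
    simp only [Zm]
    rw [← intervalIntegral.integral_const_mul]
    congr 1; ext r
    rw [abs_mul, Real.mul_rpow (abs_nonneg _) (abs_nonneg _)]
    ring
  have e3 : En h (fun s => c * u s) 0 (P.ell ε) = c ^ 2 * En h u 0 (P.ell ε) := by
    simp only [En]
    rw [← intervalIntegral.integral_const_mul]
    congr 1; ext r
    rw [deriv_const_mul_field]
    ring
  have e4 : (|c| ^ (P.p + 1) * Zm P.p k u 0 (P.ell ε)) ^ (2 / (P.p + 1))
      = c ^ 2 * (Zm P.p k u 0 (P.ell ε)) ^ (2 / (P.p + 1)) := by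
    rw [Real.mul_rpow (by positivity) hZ0, ← Real.rpow_mul (abs_nonneg _),
      mul_div_cancel₀ _ (by linarith : P.p + 1 ≠ 0), Real.rpow_two, sq_abs]
  rw [e1, e2, e3, e4] at hg
  have hc2 : 0 < c ^ 2 := by positivity
  have : c ^ 2 * (P.L2 * (Sm k u 0 (P.ell ε)
      - (∫ s in (0:ℝ)..(P.ell ε), k s) ^ ((P.p - 1) / (P.p + 1))
          * Zm P.p k u 0 (P.ell ε) ^ (2 / (P.p + 1)))) ≤ c ^ 2 * En h u 0 (P.ell ε) := by
    refine le_trans (le_of_eq ?_) hg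
    ring
  exact le_of_mul_le_mul_left this hc2

lemma lip_const_mul {u : ℝ → ℝ} {s t : ℝ} (hu : Lip u s t) (c : ℝ) :
    Lip (fun r => c * u r) s t := by
  obtain ⟨K, hK⟩ := hu
  refine ⟨‖c‖₊ * K, ?_⟩
  intro a ha b hb
  have h1 := hK ha hb
  have h2 : edist (c * u a) (c * u b) = ‖c‖₊ * edist (u a) (u b) := by
    rw [← smul_eq_mul, ← smul_eq_mul, edist_smul₀]
    rfl
  calc edist (c * u a) (c * u b) = ‖c‖₊ * edist (u a) (u b) := h2
    _ ≤ ‖c‖₊ * (K * edist a b) := by gcongr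
    _ = _ := by rw [ENNReal.coe_mul, mul_assoc]

end

theorem t3 (hQF : QFStatement) (hDir : DirStatement) : T3Statement := by
  intro P hN
  have hp0 := P.hp0
  have hp1 := P.hp1
  have hcc := P.hc
  have hM := P.hM
  have hm := P.hm
  have hL2 : 0 < P.L2 := by linarith [P.hL0, P.hL01, P.hL12]
  obtain ⟨νD, hνD, hDirE⟩ := hDir P
  -- choose ν1
  set ν1 := (1 - P.p) * (νD / 2) with hν1
  have h1p : 0 < 1 - P.p := by linarith
  have hν1p : 0 < ν1 := mul_pos h1p (by linarith [hνD.1])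
  have hfr : ν1 / (1 - P.p) = νD / 2 := by rw [hν1]; field_simp
  obtain ⟨η2, hη2, hG⟩ := GG_small hp0 hν1p
  set η := η2 / 2 with hη
  have hηp : 0 < η := by positivity
  have hG' : ∀ w, |w| ≤ 2 * η → GG P.p w ≤ (1 - P.p + ν1) * w ^ 2 := by
    intro w hw
    apply hG
    rw [hη] at hw
    linarith
  obtain ⟨t, ht, hPsi⟩ := exists_margin P hN (η := min (η / 2) (1 / 4)) (by positivity)
  obtain ⟨δ, hδ, hQFE⟩ := hQF P t ht
  have key : ∀ (f : ℝ → ℝ) (b : ℝ), Continuous f → f 0 < b → ∀ᶠ ε in 𝓝[>] (0:ℝ), f ε ≤ b := by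
    intro f b hf hb
    have : ∀ᶠ ε in 𝓝 (0:ℝ), f ε < b := (hf.tendsto 0).eventually_lt_const hb
    exact (this.filter_mono nhdsWithin_le_nhds).mono fun ε h => h.le
  have k1 := key (fun ε => ε ^ 2) (δ / 2) (by fun_prop) (by simpa using hδ)
  have k2 := key (fun ε => ε ^ 2 * (4 * (P.L2 + 1) / δ + P.L2 + 1)) t (by fun_prop)
    (by simpa using ht.1)
  have k3 := key (fun ε => 2 * (1 + 4 * (P.L2 + 1) / δ / P.M + 4 * (P.L2 + 1) / δ / P.m) * ε
    + ε ^ 2) t (by fun_prop) (by simpa using ht.1)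
  have k4 := key (fun ε => 3 * ε) t (by fun_prop) (by simpa using ht.1)
  have k5 := key (fun ε => (1 + ε ^ 2) * ((1 + ν1 / (1 - P.p)) * (1 - νD)
      + P.L2 * (6 + 4 * (3 + 2 / P.c)) * ε ^ 2)) 1 (by fun_prop) (by
    rw [hfr]
    simp only [ne_eq, OfNat.ofNat_ne_zero, not_false_eq_true, zero_pow, mul_zero, add_zero, one_mul]
    nlinarith [hνD.1, hνD.2])
  filter_upwards [eventually_small P, hDirE, hQFE, k1, k2, k3, k4, k5] with ε hS hD hQ e1 e2 e3 e4 e5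
  intro h hR k hkc hk u hu hper
  have hell := ell_pos hS
  change Goal P ε h k u
  have hk' : KW P ε h k := hk
  have hcpos := hS.pos
  rcases le_or_gt |u 0 - u (P.s4 ε)| (η * |u 0|) with hn | hf
  · -- near
    rcases eq_or_ne (u 0) 0 with hx0 | hx0
    · -- both levels vanish
      have hy0 : u (P.s4 ε) = 0 := by
        rw [hx0] at hn
        simp at hn
        exact hn
      have hq := hQ h hR u hu hper P.L2 ⟨hL2.le, le_rfl⟩
      rw [hx0, hy0] at hq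
      have hE0 : 0 ≤ En h u 0 (P.ell ε) := en_nonneg hell.le hR.pos
      have hc : Continuous h := hR.smooth.continuous
      have hcu := lip_cont hu
      have m0 : (0:ℝ) ∈ Icc 0 (P.ell ε) := ⟨le_rfl, hell.le⟩
      have ml : P.ell ε ∈ Icc 0 (P.ell ε) := ⟨hell.le, le_rfl⟩
      have hcS : ContinuousOn (fun r => k r * (u r) ^ 2) (Icc 0 (P.ell ε)) :=
        hkc.continuousOn.mul (hcu.pow 2)
      have hchS : ContinuousOn (fun r => h r * (u r) ^ 2) (Icc 0 (P.ell ε)) :=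
        hc.continuousOn.mul (hcu.pow 2)
      have hS0 : 0 ≤ Sm h u 0 (P.ell ε) :=
        int_nonneg hell.le fun r _ => mul_nonneg (hR.pos r).le (sq_nonneg _)
      have hSkS : Sm k u 0 (P.ell ε) ≤ (1 + ε ^ 2) * Sm h u 0 (P.ell ε) :=
        Sk_le hS hR hkc hk hu
      have hkp := kw_pos hS hR hk'
      have hZ0 : 0 ≤ Zm P.p k u 0 (P.ell ε) := int_nonneg hell.le fun r hr =>
        mul_nonneg (hkp r hr).le (Real.rpow_nonneg (abs_nonneg _) _)
      have hA0 : 0 ≤ ∫ s in (0:ℝ)..(P.ell ε), k s := int_nonneg hell.le fun r hr => (hkp r hr).le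
      have hAZ : 0 ≤ (∫ s in (0:ℝ)..(P.ell ε), k s) ^ ((P.p - 1) / (P.p + 1))
          * Zm P.p k u 0 (P.ell ε) ^ (2 / (P.p + 1)) := by positivity
      have hq' : P.L2 * Sm h u 0 (P.ell ε) ≤ (1 - δ) * En h u 0 (P.ell ε) := by
        simp at hq
        linarith
      unfold Goal
      set E := En h u 0 (P.ell ε)
      set S := Sm h u 0 (P.ell ε)
      have he2 : 0 < ε ^ 2 := by positivity
      have e1' : ε ^ 2 ≤ δ / 2 := e1
      have : P.L2 * Sm k u 0 (P.ell ε) ≤ E := by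
        calc P.L2 * Sm k u 0 (P.ell ε) ≤ P.L2 * ((1 + ε ^ 2) * S) := by gcongr
          _ = P.L2 * S + ε ^ 2 * (P.L2 * S) := by ring
          _ ≤ (1 - δ) * E + ε ^ 2 * ((1 - δ) * E) := by gcongr
          _ ≤ (1 - δ) * E + ε ^ 2 * E := by
              have : ε ^ 2 * ((1 - δ) * E) ≤ ε ^ 2 * E := by
                apply mul_le_mul_of_nonneg_left _ he2.le
                nlinarith
              linarith
          _ ≤ (1 - δ) * E + δ / 2 * E := by gcongr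
          _ ≤ E := by nlinarith
      rw [mul_sub]
      have : 0 ≤ P.L2 * ((∫ s in (0:ℝ)..(P.ell ε), k s) ^ ((P.p - 1) / (P.p + 1))
          * Zm P.p k u 0 (P.ell ε) ^ (2 / (P.p + 1))) := by positivity
      linarith
    · -- scale to level one
      apply goal_of_scale hS hR hk' (c := (u 0)⁻¹) (inv_ne_zero hx0)
      apply near_core (νD := νD) (ν1 := ν1) (η := η) hS hR hkc hk' hν1p hG'
        (fun w hw w0 wl => hD h hR w hw w0 wl) e5 (lip_const_mul hu _)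
      · exact inv_mul_cancel₀ hx0
      · rw [← hper]; exact inv_mul_cancel₀ hx0
      · have : (u 0)⁻¹ * u (P.s4 ε) - 1 = (u 0)⁻¹ * (u (P.s4 ε) - u 0) := by
          field_simp
        rw [this, abs_mul, abs_inv]
        have hpos : 0 < |u 0| := abs_pos.2 hx0
        rw [inv_mul_le_iff₀ hpos, abs_sub_comm]
        linarith
  · -- far
    have hsum : 0 < u 0 ^ 2 + u (P.s4 ε) ^ 2 := by
      by_contra hcon
      have hx0 : u 0 = 0 := by nlinarith [sq_nonneg (u 0), sq_nonneg (u (P.s4 ε))]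
      have hy0 : u (P.s4 ε) = 0 := by nlinarith [sq_nonneg (u 0), sq_nonneg (u (P.s4 ε))]
      rw [hx0, hy0] at hf
      simp at hf
    set c := (√(u 0 ^ 2 + u (P.s4 ε) ^ 2))⁻¹ with hc
    have hsq : 0 < √(u 0 ^ 2 + u (P.s4 ε) ^ 2) := Real.sqrt_pos.2 hsum
    have hcp : 0 < c := inv_pos.2 hsq
    apply goal_of_scale hS hR hk' (c := c) hcp.ne'
    have hnorm : (c * u 0) ^ 2 + (c * u (P.s4 ε)) ^ 2 = 1 := by
      have : (c * u 0) ^ 2 + (c * u (P.s4 ε)) ^ 2 = c ^ 2 * (u 0 ^ 2 + u (P.s4 ε) ^ 2) := by ring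
      rw [this, hc, inv_pow, Real.sq_sqrt hsum.le, inv_mul_cancel₀ hsum.ne']
    have hlu := lip_const_mul hu c
    have hq := hQ h hR (fun s => c * u s) hlu (by rw [hper]) P.L2 ⟨hL2.le, le_rfl⟩
    refine far_core hS hR hkc hk' ht.1 ht.2 hδ hlu (by rw [hper]) hq hnorm ?_ e1 e2 e3 e4
    apply hPsi _ _ hnorm
    have hf' : η * |c * u 0| < |c * u 0 - c * u (P.s4 ε)| := by
      rw [← mul_sub, abs_mul, abs_mul, abs_of_pos hcp]
      nlinarith
    rcases le_total (1 / 2) |c * u 0| with h5 | h5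
    · refine (min_le_left _ _).trans ?_
      nlinarith
    · refine (min_le_right _ _).trans ?_
      set X := c * u 0
      set Y := c * u (P.s4 ε)
      have hX : X ^ 2 ≤ 1 / 4 := by rw [← sq_abs]; nlinarith [abs_nonneg X]
      have hY : (3 / 4 : ℝ) ≤ |Y| := by
        have : 3 / 4 ≤ |Y| ^ 2 := by rw [sq_abs]; linarith
        by_contra hcon
        push Not at hcon
        nlinarith [abs_nonneg Y]
      have := abs_sub_abs_le_abs_sub Y X
      rw [abs_sub_comm Y X] at this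
      linarith

end Pool.Agent.Lib.MP_e46711_an.H76
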