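import Pool.Agent.Lib.MP_e46711_an.H76.Ring

/-!
Module C3, the case where the two levels are close (helper76).
-/

open Set Filter Topology MeasureTheory
open scoped ContDiff

namespace Pool.Agent.Lib.MP_e46711_an.H76

/-- `G(w) = (1+w)^2 - 1 - (2/(p+1)) (|1+w|^(p+1) - 1)` -/
noncomputable def GG (p w : ℝ) : ℝ := (1 + w) ^ 2 - 1 - 2 / (p + 1) * (|1 + w| ^ (p + 1) - 1)

lemma GG_le {p : ℝ} (hp : 0 < p) (w : ℝ) : GG p w ≤ w ^ 2 := by
  have h1 := tangent (q := p + 1) (by linarith) (1 + w) 1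
  simp only [sp_one, abs_one, Real.one_rpow, mul_one] at h1
  have h2 : 1 + (p + 1) * w ≤ |1 + w| ^ (p + 1) := by linarith
  have h3 : 2 * w ≤ 2 / (p + 1) * (|1 + w| ^ (p + 1) - 1) := by
    have : 2 * w = 2 / (p + 1) * ((p + 1) * w) := by field_simp
    rw [this]
    gcongr
    linarith
  simp only [GG]
  nlinarith

lemma GG_small {p : ℝ} (hp : 0 < p) {ν : ℝ} (hν : 0 < ν) :
    ∃ η > 0, ∀ w, |w| ≤ η → GG p w ≤ (1 - p + ν) * w ^ 2 := by
  -- derivative of `(1+w)^p` at `0`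
  have hd : HasDerivAt (fun w : ℝ => (1 + w) ^ p) p 0 := by
    have h1 : HasDerivAt (fun w : ℝ => 1 + w) 1 0 := by
      simpa using (hasDerivAt_id (0:ℝ)).const_add 1
    have := h1.rpow_const (p := p) (Or.inl (by norm_num))
    simpa using this
  have hev : ∀ᶠ w in 𝓝 (0:ℝ), |(1 + w) ^ p - 1 - w * p| ≤ ν * |w| := by
    have := (hasDerivAt_iff_isLittleO.1 hd).def hν
    simpa [Real.norm_eq_abs] using this
  obtain ⟨r, hr, hball⟩ := Metric.eventually_nhds_iff.1 hev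
  set η := min (r / 2) (1 / 2) with hη
  have hη0 : 0 < η := by positivity
  refine ⟨η, hη0, fun w hw => ?_⟩
  have hest : ∀ v, |v| ≤ η → |(1 + v) ^ p - 1 - v * p| ≤ ν * |v| := by
    intro v hv
    apply hball
    rw [dist_zero_right, Real.norm_eq_abs]
    have : η ≤ r / 2 := min_le_left _ _
    linarith
  have hη2 : η ≤ 1 / 2 := min_le_right _ _
  set f : ℝ → ℝ := fun v => 2 / (p + 1) * ((1 + v) ^ (p + 1) - 1) - 2 * v - (p - ν) * v ^ 2 with hf
  have hfd : ∀ v, |v| ≤ η → HasDerivAt f (2 * (1 + v) ^ p - 2 - 2 * (p - ν) * v) v := by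
    intro v hv
    have hv' := abs_le.1 hv
    have h1 : HasDerivAt (fun w : ℝ => 1 + w) 1 v := by
      simpa using (hasDerivAt_id v).const_add 1
    have h2 := h1.rpow_const (p := p + 1) (Or.inl (by linarith))
    have h3 := ((h2.sub_const 1).const_mul (2 / (p + 1))).sub ((hasDerivAt_id v).const_mul 2)
    have h4 := h3.sub (((hasDerivAt_id v).pow 2).const_mul (p - ν))
    convert! h4 using 1
    have : (p + 1 - 1) = p := by ring
    rw [this]
    field_simp
    simp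
    try ring
  have hcont : ∀ v, |v| ≤ η → ContinuousAt f v := fun v hv => (hfd v hv).continuousAt
  have f0 : f 0 = 0 := by simp [hf]
  have hfw : 0 ≤ f w := by
    rcases le_total 0 w with h0 | h0
    · have hmono : MonotoneOn f (Icc 0 η) := by
        apply monotoneOn_of_deriv_nonneg (convex_Icc 0 η)
        · intro v hv
          exact (hcont v (by rw [abs_of_nonneg hv.1]; exact hv.2)).continuousWithinAt
        · intro v hv
          rw [interior_Icc] at hv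
          exact (hfd v (by rw [abs_of_nonneg hv.1.le]; exact hv.2.le)).differentiableAt.differentiableWithinAt
        · intro v hv
          rw [interior_Icc] at hv
          have hv1 : |v| ≤ η := by rw [abs_of_nonneg hv.1.le]; exact hv.2.le
          rw [(hfd v hv1).deriv]
          have h5 := (abs_le.1 (hest v hv1)).1
          rw [abs_of_nonneg hv.1.le] at h5
          nlinarith
      have := hmono ⟨le_rfl, hη0.le⟩ ⟨h0, by rwa [abs_of_nonneg h0] at hw⟩ h0
      rwa [f0] at this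
    · have hmono : AntitoneOn f (Icc (-η) 0) := by
        apply antitoneOn_of_deriv_nonpos (convex_Icc (-η) 0)
        · intro v hv
          exact (hcont v (by rw [abs_of_nonpos hv.2]; linarith [hv.1])).continuousWithinAt
        · intro v hv
          rw [interior_Icc] at hv
          exact (hfd v (by rw [abs_of_nonpos hv.2.le]; linarith [hv.1])).differentiableAt.differentiableWithinAt
        · intro v hv
          rw [interior_Icc] at hv
          have hv1 : |v| ≤ η := by rw [abs_of_nonpos hv.2.le]; linarith [hv.1]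
          rw [(hfd v hv1).deriv]
          have h5 := (abs_le.1 (hest v hv1)).2
          rw [abs_of_nonpos hv.2.le] at h5
          nlinarith
      rw [abs_of_nonpos h0] at hw
      have := hmono ⟨by linarith, h0⟩ ⟨by linarith, le_rfl⟩ h0
      rwa [f0] at this
  have hw' := abs_le.1 hw
  have habs : |1 + w| = 1 + w := abs_of_nonneg (by linarith)
  simp only [GG, habs]
  simp only [hf] at hfw
  nlinarith

lemma continuous_GG {p : ℝ} (hp : 0 < p) : Continuous (GG p) := by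
  unfold GG
  have h1 : Continuous fun w : ℝ => |1 + w| ^ (p + 1) :=
    (continuous_abs.comp (continuous_const.add continuous_id)).rpow_const
      (fun _ => Or.inr (by linarith))
  fun_prop

/-- Bernoulli for the interpolation term -/
lemma bern {p A Z : ℝ} (hp : 0 < p) (hp1 : p < 1) (hA : 0 < A) (hZ : 0 ≤ Z) :
    A + 2 / (p + 1) * (Z - A) ≤ A ^ ((p - 1) / (p + 1)) * Z ^ (2 / (p + 1)) := by
  have hq : 1 ≤ 2 / (p + 1) := by rw [le_div_iff₀ (by linarith)]; linarith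
  have h1 : -1 ≤ Z / A - 1 := by
    have : 0 ≤ Z / A := div_nonneg hZ hA.le
    linarith
  have h2 := one_add_mul_self_le_rpow_one_add h1 hq
  rw [show (1:ℝ) + (Z / A - 1) = Z / A by ring] at h2
  have h3 : A ^ ((p - 1) / (p + 1)) * Z ^ (2 / (p + 1)) = A * (Z / A) ^ (2 / (p + 1)) := by
    rw [Real.div_rpow hZ hA.le]
    have e : (p - 1) / (p + 1) = 1 - 2 / (p + 1) := by field_simp; ring
    rw [e, Real.rpow_sub hA, Real.rpow_one]
    ring
  rw [h3]
  calc A + 2 / (p + 1) * (Z - A) = A * (1 + 2 / (p + 1) * (Z / A - 1)) := by field_simp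
    _ ≤ A * (Z / A) ^ (2 / (p + 1)) := by gcongr

section
variable {P : Par} {ε : ℝ} {h k : ℝ → ℝ}

/-- the perturbed mass weights -/
def KW (P : Par) (ε : ℝ) (h k : ℝ → ℝ) : Prop :=
  ∀ s ∈ Icc 0 (P.ell ε), k s ∈ Icc ((1 - ε ^ 2) * h s) ((1 + ε ^ 2) * h s)

/-- the inequality to be proved -/
def Goal (P : Par) (ε : ℝ) (h k u : ℝ → ℝ) : Prop :=
  P.L2 * (Sm k u 0 (P.ell ε) - (∫ s in (0:ℝ)..(P.ell ε), k s) ^ ((P.p - 1) / (P.p + 1))
          * Zm P.p k u 0 (P.ell ε) ^ (2 / (P.p + 1)))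
        ≤ En h u 0 (P.ell ε)

lemma kw_pos (hS : Small P ε) (hR : P.IsRing ε h) (hk : KW P ε h k) :
    ∀ s ∈ Icc 0 (P.ell ε), 0 < k s := by
  intro s hs
  have h1 := (hk s hs).1
  have h2 := hR.pos s
  have h3 := hS.pos
  have h4 := hS.le1
  have : 0 < 1 - ε ^ 2 := by nlinarith
  have := mul_pos this h2
  linarith

lemma ell_pos (hS : Small P ε) : 0 < P.ell ε := by
  have := hS.pos
  have := P.hτ
  simp only [Par.ell]
  positivity

lemma near_core {νD ν1 η : ℝ} {u : ℝ → ℝ} (hS : Small P ε) (hR : P.IsRing ε h)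
    (hkc : Continuous k) (hk : KW P ε h k) (hν1 : 0 < ν1)
    (hG : ∀ w, |w| ≤ 2 * η → GG P.p w ≤ (1 - P.p + ν1) * w ^ 2)
    (hD : ∀ w, Lip w 0 (P.ell ε) → w 0 = 0 → w (P.ell ε) = 0 →
      (1 - P.p) * P.L2 * (Sm h w 0 (P.s6 ε) + Sm h w (P.s14 ε) (P.ell ε))
      + P.L2 * Sm h w (P.s6 ε) (P.s14 ε) ≤ (1 - νD) * En h w 0 (P.ell ε))
    (hC : (1 + ε ^ 2) * ((1 + ν1 / (1 - P.p)) * (1 - νD)
      + P.L2 * (6 + 4 * (3 + 2 / P.c)) * ε ^ 2) ≤ 1)
    (hu : Lip u 0 (P.ell ε)) (u0 : u 0 = 1) (ul : u (P.ell ε) = 1) (hy : |u (P.s4 ε) - 1| ≤ η) :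
    Goal P ε h k u := by
  have hc : Continuous h := hR.smooth.continuous
  have h0 := hS.pos
  have hb := bp P hS.pos
  obtain ⟨b1, b2, b3, b4, b5, b6, b7, b8, b9, b10, b11, b12, b13, b14, b15⟩ := hb
  have hp0 := P.hp0
  have hp1 := P.hp1
  have hL2 : 0 < P.L2 := by linarith [P.hL0, P.hL01, P.hL12]
  have hell := ell_pos hS
  have hkp := kw_pos hS hR hk
  set w : ℝ → ℝ := fun s => u s - 1 with hwdef
  have hw : Lip w 0 (P.ell ε) := by
    obtain ⟨K, hK⟩ := hu
    refine ⟨K, ?_⟩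
    intro a ha b hb
    have := hK ha hb
    simpa [hwdef] using this
  have w0 : w 0 = 0 := by simp [hwdef, u0]
  have wl : w (P.ell ε) = 0 := by simp [hwdef, ul]
  have hEn : En h w 0 (P.ell ε) = En h u 0 (P.ell ε) := by
    simp only [En, hwdef]
    congr 1
    ext r
    rw [deriv_sub_const]
  set E := En h u 0 (P.ell ε) with hE
  have hE0 : 0 ≤ E := en_nonneg hell.le hR.pos
  have hcw := lip_cont hw
  have hcu := lip_cont hu
  -- Bernoulli
  set A := ∫ s in (0:ℝ)..(P.ell ε), k s with hA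
  have hApos : 0 < A :=
    intervalIntegral.intervalIntegral_pos_of_pos_on (hkc.intervalIntegrable _ _)
      (fun s hs => hkp s (Ioo_subset_Icc_self hs)) hell
  set Z := Zm P.p k u 0 (P.ell ε) with hZ
  have hZ0 : 0 ≤ Z := int_nonneg hell.le fun r hr =>
    mul_nonneg (hkp r hr).le (Real.rpow_nonneg (abs_nonneg _) _)
  have hbern := bern hp0 hp1 hApos hZ0
  have m0 : (0:ℝ) ∈ Icc 0 (P.ell ε) := ⟨le_rfl, by linarith⟩
  have m4 : P.s4 ε ∈ Icc 0 (P.ell ε) := ⟨by linarith, by linarith⟩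
  have m6 : P.s6 ε ∈ Icc 0 (P.ell ε) := ⟨by linarith, by linarith⟩
  have m14 : P.s14 ε ∈ Icc 0 (P.ell ε) := ⟨by linarith, by linarith⟩
  have ml : P.ell ε ∈ Icc 0 (P.ell ε) := ⟨by linarith, by linarith⟩
  -- the difference is the integral of `k G(w)`
  have hcS : ContinuousOn (fun r => k r * (u r) ^ 2) (Icc 0 (P.ell ε)) :=
    hkc.continuousOn.mul (hcu.pow 2)
  have hcZ : ContinuousOn (fun r => k r * |u r| ^ (P.p + 1)) (Icc 0 (P.ell ε)) :=
    hkc.continuousOn.mul ((continuous_abs.comp_continuousOn hcu).rpow_const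
      (fun _ _ => Or.inr (by linarith)))
  have hcG : ContinuousOn (fun r => k r * GG P.p (w r)) (Icc 0 (P.ell ε)) :=
    hkc.continuousOn.mul ((continuous_GG hp0).comp_continuousOn hcw)
  have hint : Sm k u 0 (P.ell ε) - (A + 2 / (P.p + 1) * (Z - A))
      = ∫ r in (0:ℝ)..(P.ell ε), k r * GG P.p (w r) := by
    have e1 : ∀ r, k r * GG P.p (w r) = (k r * (u r) ^ 2 - k r)
        - 2 / (P.p + 1) * (k r * |u r| ^ (P.p + 1) - k r) := by
      intro r
      have : (1:ℝ) + w r = u r := by simp [hwdef]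
      simp only [GG, this]
      ring
    simp_rw [e1]
    have i1 := co_int hcS m0 ml
    have i2 := co_int hcZ m0 ml
    have i3 : IntervalIntegrable k volume 0 (P.ell ε) := hkc.intervalIntegrable _ _
    rw [intervalIntegral.integral_sub (i1.sub i3) ((i2.sub i3).const_mul _),
      intervalIntegral.integral_sub i1 i3, intervalIntegral.integral_const_mul,
      intervalIntegral.integral_sub i2 i3]
    simp only [Sm, hZ, Zm, hA]
    ring
  -- pointwise bounds
  have hsq : ∀ r ∈ Icc 0 (P.ell ε), k r * GG P.p (w r) ≤ (1 + ε ^ 2) * (h r * (w r) ^ 2) := by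
    intro r hr
    have a1 := GG_le hp0 (w r)
    have a2 := (hk r hr).2
    calc k r * GG P.p (w r) ≤ k r * (w r) ^ 2 := mul_le_mul_of_nonneg_left a1 (hkp r hr).le
      _ ≤ ((1 + ε ^ 2) * h r) * (w r) ^ 2 := mul_le_mul_of_nonneg_right a2 (sq_nonneg _)
      _ = _ := by ring
  have hw4 : |w (P.s4 ε)| ≤ η := hy
  have hmid : ∀ r ∈ Icc 0 (P.ell ε), k r * GG P.p (w r) ≤ (1 + ε ^ 2) *
      ((1 - P.p + ν1) * (h r * (w r) ^ 2) + 4 * (h r * (w r - w (P.s4 ε)) ^ 2)) := by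
    intro r hr
    have a2 := (hk r hr).2
    have hpp : 0 < 1 - P.p + ν1 := by linarith
    have a3 : GG P.p (w r) ≤ (1 - P.p + ν1) * (w r) ^ 2 + 4 * (w r - w (P.s4 ε)) ^ 2 := by
      rcases le_total |w r| (2 * η) with hc1 | hc1
      · have := hG _ hc1
        have := sq_nonneg (w r - w (P.s4 ε))
        linarith
      · have h1 := GG_le hp0 (w r)
        have h2 : |w r| ≤ 2 * |w r - w (P.s4 ε)| := by
          have : |w r| ≤ |w r - w (P.s4 ε)| + |w (P.s4 ε)| := by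
            have := abs_add_le (w r - w (P.s4 ε)) (w (P.s4 ε))
            simpa using this
          linarith
        have h3 : (w r) ^ 2 ≤ 4 * (w r - w (P.s4 ε)) ^ 2 := by
          rw [← sq_abs (w r), ← sq_abs (w r - w (P.s4 ε))]
          have := abs_nonneg (w r)
          nlinarith
        have : 0 ≤ (1 - P.p + ν1) * (w r) ^ 2 := by positivity
        linarith
    have hnn : 0 ≤ (1 - P.p + ν1) * (w r) ^ 2 + 4 * (w r - w (P.s4 ε)) ^ 2 := by positivity
    calc k r * GG P.p (w r) ≤ k r * ((1 - P.p + ν1) * (w r) ^ 2 + 4 * (w r - w (P.s4 ε)) ^ 2) :=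
          mul_le_mul_of_nonneg_left a3 (hkp r hr).le
      _ ≤ ((1 + ε ^ 2) * h r) * ((1 - P.p + ν1) * (w r) ^ 2 + 4 * (w r - w (P.s4 ε)) ^ 2) :=
          mul_le_mul_of_nonneg_right a2 hnn
      _ = _ := by ring
  have hch : ContinuousOn (fun r => h r * (w r) ^ 2) (Icc 0 (P.ell ε)) :=
    hc.continuousOn.mul (hcw.pow 2)
  have hco : ContinuousOn (fun r => h r * (w r - w (P.s4 ε)) ^ 2) (Icc 0 (P.ell ε)) :=
    hc.continuousOn.mul ((hcw.sub continuousOn_const).pow 2)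
  have piece : ∀ s t, s ∈ Icc 0 (P.ell ε) → t ∈ Icc 0 (P.ell ε) → s ≤ t →
      (∫ r in s..t, k r * GG P.p (w r)) ≤ (1 + ε ^ 2) * Sm h w s t := by
    intro s t hs ht hst
    have := intervalIntegral.integral_mono_on hst (co_int hcG hs ht)
      ((co_int hch hs ht).const_mul (1 + ε ^ 2))
      (fun r hr => hsq r ⟨hs.1.trans hr.1, hr.2.trans ht.2⟩)
    rwa [intervalIntegral.integral_const_mul] at this
  have p1 := piece _ _ m0 m4 m4.1
  have p3 := piece _ _ m6 m14 (by linarith)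
  have p4 := piece _ _ m14 ml (by linarith)
  have p2 : (∫ r in (P.s4 ε)..(P.s6 ε), k r * GG P.p (w r)) ≤ (1 + ε ^ 2) *
      ((1 - P.p + ν1) * Sm h w (P.s4 ε) (P.s6 ε)
        + 4 * ∫ r in (P.s4 ε)..(P.s6 ε), h r * (w r - w (P.s4 ε)) ^ 2) := by
    have i1 := co_int hch m4 m6
    have i2 := co_int hco m4 m6
    have := intervalIntegral.integral_mono_on (by linarith) (co_int hcG m4 m6)
      (((i1.const_mul (1 - P.p + ν1)).add (i2.const_mul 4)).const_mul (1 + ε ^ 2))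
      (fun r hr => hmid r ⟨m4.1.trans hr.1, hr.2.trans m6.2⟩)
    rwa [intervalIntegral.integral_const_mul, intervalIntegral.integral_add
      (i1.const_mul (1 - P.p + ν1)) (i2.const_mul 4), intervalIntegral.integral_const_mul,
      intervalIntegral.integral_const_mul] at this
  have hsplit : ∫ r in (0:ℝ)..(P.ell ε), k r * GG P.p (w r)
      = (∫ r in (0:ℝ)..(P.s4 ε), k r * GG P.p (w r))
        + (∫ r in (P.s4 ε)..(P.s6 ε), k r * GG P.p (w r))
        + (∫ r in (P.s6 ε)..(P.s14 ε), k r * GG P.p (w r))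
        + (∫ r in (P.s14 ε)..(P.ell ε), k r * GG P.p (w r)) := by
    rw [int_split hcG m0 m14 ml, int_split hcG m0 m6 m14, int_split hcG m0 m4 m6]
  have hD' := hD w hw w0 wl
  have hSm06 : Sm h w 0 (P.s6 ε) = Sm h w 0 (P.s4 ε) + Sm h w (P.s4 ε) (P.s6 ε) :=
    int_split hch m0 m4 m6
  obtain ⟨nm1, nm2⟩ := near_mass hS hR hw w0 wl
  have os := osc46 hS hR hw
  rw [hEn] at hD' nm1 nm2 os
  have sm0 : ∀ s t, s ≤ t → 0 ≤ Sm h w s t := fun s t hst =>
    int_nonneg hst fun r _ => mul_nonneg (hR.pos r).le (sq_nonneg _)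
  have z1 := sm0 0 (P.s4 ε) m4.1
  have z2 := sm0 (P.s4 ε) (P.s6 ε) (by linarith)
  have z3 := sm0 (P.s6 ε) (P.s14 ε) (by linarith)
  have z4 := sm0 (P.s14 ε) (P.ell ε) (by linarith)
  set a1 := Sm h w 0 (P.s4 ε)
  set a2 := Sm h w (P.s4 ε) (P.s6 ε)
  set a3 := Sm h w (P.s6 ε) (P.s14 ε)
  set a4 := Sm h w (P.s14 ε) (P.ell ε)
  set os' := ∫ r in (P.s4 ε)..(P.s6 ε), h r * (w r - w (P.s4 ε)) ^ 2
  rw [hSm06] at hD'
  set X := ∫ r in (0:ℝ)..(P.ell ε), k r * GG P.p (w r) with hX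
  have hXle : X ≤ (1 + ε ^ 2) * (a1 + ((1 - P.p + ν1) * a2 + 4 * os') + a3 + a4) := by
    rw [hsplit]
    have : (1 + ε ^ 2) * (a1 + ((1 - P.p + ν1) * a2 + 4 * os') + a3 + a4)
      = (1 + ε ^ 2) * a1 + (1 + ε ^ 2) * ((1 - P.p + ν1) * a2 + 4 * os') + (1 + ε ^ 2) * a3
        + (1 + ε ^ 2) * a4 := by ring
    rw [this]
    linarith
  have h1p : 0 < 1 - P.p := by linarith
  have hfrac : 0 ≤ ν1 / (1 - P.p) := by positivity
  have hkey : P.L2 * (a1 + ((1 - P.p + ν1) * a2 + 4 * os') + a3 + a4)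
      ≤ ((1 + ν1 / (1 - P.p)) * (1 - νD) + P.L2 * (6 + 4 * (3 + 2 / P.c)) * ε ^ 2) * E := by
    have t1 : P.L2 * ((1 - P.p + ν1) * a2) + P.L2 * a3
        ≤ (1 + ν1 / (1 - P.p)) * ((1 - P.p) * P.L2 * (a1 + a2 + a4) + P.L2 * a3) := by
      have e : (1 + ν1 / (1 - P.p)) * ((1 - P.p) * P.L2 * (a1 + a2 + a4) + P.L2 * a3)
          = P.L2 * ((1 - P.p + ν1) * a2) + P.L2 * a3
            + (1 + ν1 / (1 - P.p)) * ((1 - P.p) * P.L2 * (a1 + a4))
            + ν1 / (1 - P.p) * (P.L2 * a3) := by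
        field_simp
        ring
      rw [e]
      have : 0 ≤ (1 + ν1 / (1 - P.p)) * ((1 - P.p) * P.L2 * (a1 + a4)) := by positivity
      have : 0 ≤ ν1 / (1 - P.p) * (P.L2 * a3) := by positivity
      linarith
    have t2 : (1 + ν1 / (1 - P.p)) * ((1 - P.p) * P.L2 * (a1 + a2 + a4) + P.L2 * a3)
        ≤ (1 + ν1 / (1 - P.p)) * ((1 - νD) * E) := by
      apply mul_le_mul_of_nonneg_left hD'; linarith
    have t3 : P.L2 * (a1 + 4 * os' + a4) ≤ P.L2 * ((6 + 4 * (3 + 2 / P.c)) * ε ^ 2 * E) := by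
      apply mul_le_mul_of_nonneg_left _ hL2.le
      have : (6 + 4 * (3 + 2 / P.c)) * ε ^ 2 * E
        = 5 * ε ^ 2 * E + ε ^ 2 * E + 4 * ((3 + 2 / P.c) * ε ^ 2 * E) := by ring
      rw [this]
      linarith
    calc P.L2 * (a1 + ((1 - P.p + ν1) * a2 + 4 * os') + a3 + a4)
        = (P.L2 * ((1 - P.p + ν1) * a2) + P.L2 * a3) + P.L2 * (a1 + 4 * os' + a4) := by ring
      _ ≤ (1 + ν1 / (1 - P.p)) * ((1 - νD) * E) + P.L2 * ((6 + 4 * (3 + 2 / P.c)) * ε ^ 2 * E) := by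
          linarith
      _ = _ := by ring
  have hfin : P.L2 * X ≤ E := by
    calc P.L2 * X ≤ P.L2 * ((1 + ε ^ 2) * (a1 + ((1 - P.p + ν1) * a2 + 4 * os') + a3 + a4)) := by
          gcongr
      _ = (1 + ε ^ 2) * (P.L2 * (a1 + ((1 - P.p + ν1) * a2 + 4 * os') + a3 + a4)) := by ring
      _ ≤ (1 + ε ^ 2) * (((1 + ν1 / (1 - P.p)) * (1 - νD)
          + P.L2 * (6 + 4 * (3 + 2 / P.c)) * ε ^ 2) * E) := by gcongr
      _ = ((1 + ε ^ 2) * ((1 + ν1 / (1 - P.p)) * (1 - νD)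
          + P.L2 * (6 + 4 * (3 + 2 / P.c)) * ε ^ 2)) * E := by ring
      _ ≤ 1 * E := by gcongr
      _ = E := one_mul _
  unfold Goal
  calc P.L2 * (Sm k u 0 (P.ell ε) - A ^ ((P.p - 1) / (P.p + 1)) * Z ^ (2 / (P.p + 1)))
      ≤ P.L2 * (Sm k u 0 (P.ell ε) - (A + 2 / (P.p + 1) * (Z - A))) := by gcongr
    _ = P.L2 * X := by rw [hint]
    _ ≤ E := hfin

end

end Pool.Agent.Lib.MP_e46711_an.H76
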