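import Pool.Agent.Lib.MP_e46711_an.H76.Tools

/-!
Bounds on the ring (helper76).
-/

open Set Filter Topology MeasureTheory
open scoped ContDiff

namespace Pool.Agent.Lib.MP_e46711_an.H76

/-- smallness of `ε` -/
structure Small (P : Par) (ε : ℝ) : Prop where
  pos : 0 < ε
  le1 : ε ≤ 1 / 4
  hM : ε ^ 2 ≤ P.M
  hm : ε ^ 2 ≤ P.m
  mass : (3 + P.τ) * ε + 2 * ε ^ 2 + P.a * ε ^ 2 + P.c * ε ^ 3 + ε ^ 4 ≤ 1

lemma eventually_small (P : Par) : ∀ᶠ ε in 𝓝[>] (0:ℝ), Small P ε := by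
  have h1 : ∀ᶠ ε in 𝓝[>] (0:ℝ), 0 < ε := eventually_mem_nhdsWithin
  have key : ∀ (f : ℝ → ℝ) (b : ℝ), Continuous f → f 0 < b → ∀ᶠ ε in 𝓝[>] (0:ℝ), f ε ≤ b := by
    intro f b hf hb
    have : ∀ᶠ ε in 𝓝 (0:ℝ), f ε < b := (hf.tendsto 0).eventually_lt_const hb
    exact (this.filter_mono nhdsWithin_le_nhds).mono fun ε h => h.le
  have h2 := key (fun ε => ε) (1 / 4) continuous_id (by norm_num)
  have h3 := key (fun ε => ε ^ 2) P.M (by fun_prop) (by simpa using P.hM)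
  have h4 := key (fun ε => ε ^ 2) P.m (by fun_prop) (by simpa using P.hm)
  have h5 := key (fun ε => (3 + P.τ) * ε + 2 * ε ^ 2 + P.a * ε ^ 2 + P.c * ε ^ 3 + ε ^ 4) 1
    (by fun_prop) (by norm_num)
  filter_upwards [h1, h2, h3, h4, h5] with ε a1 a2 a3 a4 a5
  exact ⟨a1, a2, a3, a4, a5⟩

section
variable {P : Par} {ε : ℝ} {h : ℝ → ℝ}

lemma one_le_div (hS : Small P ε) : 1 ≤ P.M / ε ^ 2 ∧ 1 ≤ P.m / ε ^ 2 := by
  have : 0 < ε ^ 2 := pow_pos hS.pos 2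
  constructor
  · rw [le_div_iff₀ this]; linarith [hS.hM]
  · rw [le_div_iff₀ this]; linarith [hS.hm]

lemma low04 (hS : Small P ε) (hR : P.IsRing ε h) : ∀ s ∈ Icc 0 (P.s4 ε), 1 ≤ h s := by
  intro s hs
  have hb := bp P hS.pos
  have h1 := one_le_div hS
  rcases le_total s (P.s1 ε) with a | a
  · rw [hR.hH s ⟨hs.1, a⟩]; exact h1.1
  rcases le_total s (P.s2 ε) with b | b
  · exact (hR.hJ1 s ⟨a, b⟩).1
  rcases le_total s (P.s3 ε) with c | c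
  · rw [hR.hN1 s ⟨b, c⟩]
  · exact (hR.hJ2 s ⟨c, hs.2⟩).1

lemma s4_le (hS : Small P ε) : P.s4 ε ≤ 2 * ε := by
  have h0 := hS.pos
  have h1 := hS.le1
  simp only [Par.s4]
  have : ε ^ 3 ≤ ε * (1 / 16) := by
    have : ε ^ 2 ≤ 1 / 16 := by nlinarith
    calc ε ^ 3 = ε * ε ^ 2 := by ring
      _ ≤ ε * (1 / 16) := by gcongr
  linarith

/-- total mass -/
lemma mass_le (hS : Small P ε) (hR : P.IsRing ε h) :
    ∫ s in (0:ℝ)..(P.ell ε), h s ≤ 1 / ε + 2 := by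
  have hc : Continuous h := hR.smooth.continuous
  have h0 := hS.pos
  have hb := bp P hS.pos
  obtain ⟨b1, b2, b3, b4, b5, b6, b7, b8, b9, b10, b11, b12, b13, b14, b15⟩ := hb
  have split : ∀ (a b c X Y : ℝ), (∫ s in a..b, h s) ≤ X → (∫ s in b..c, h s) ≤ Y →
      (∫ s in a..c, h s) ≤ X + Y := by
    intro a b c X Y h1 h2
    rw [← intervalIntegral.integral_add_adjacent_intervals (hc.intervalIntegrable a b)
      (hc.intervalIntegrable b c)]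
    exact add_le_add h1 h2
  have pc : ∀ (a b B : ℝ), a ≤ b → (∀ r ∈ Icc a b, h r ≤ B) → (∫ s in a..b, h s) ≤ B * (b - a) :=
    fun a b B hab hB => int_le hab (hc.intervalIntegrable a b) hB
  have p1 := pc 0 (P.s1 ε) _ b1.le (fun r hr => (hR.hH r hr).le)
  have p2 := pc _ _ _ b2.le (fun r hr => (hR.hJ1 r hr).2)
  have p3 := pc _ _ _ b3.le (fun r hr => (hR.hN1 r hr).le)
  have p4 := pc _ _ _ b4.le (fun r hr => (hR.hJ2 r hr).2)
  have p5 := pc _ _ _ b5.le (fun r hr => (hR.hL r hr).le)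
  have p6 := pc _ _ _ b6.le (fun r hr => (hR.hJ3 r hr).2)
  have p7 := pc _ _ _ b7.le (fun r hr => (hR.hN2 r hr).le)
  have p8 := pc _ _ _ b8.le (fun r hr => (hR.hJ4 r hr).2)
  have p9 := pc _ _ _ b9.le (fun r hr => (hR.hQ r hr).le)
  have p10 := pc _ _ _ b10.le (fun r hr => (hR.hJ5 r hr).2)
  have p11 := pc _ _ _ b11.le (fun r hr => (hR.hR r hr).le)
  have p12 := pc _ _ _ b12.le (fun r hr => (hR.hJ6 r hr).2)
  have p13 := pc _ _ _ b13.le (fun r hr => (hR.hN3 r hr).le)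
  have p14 := pc _ _ _ b14.le (fun r hr => (hR.hJ7 r hr).2)
  have p15 := pc _ _ _ b15.le (fun r hr => (hR.hH' r hr).le)
  have total := split _ _ _ _ _ (split _ _ _ _ _ (split _ _ _ _ _ (split _ _ _ _ _
    (split _ _ _ _ _ (split _ _ _ _ _ (split _ _ _ _ _ (split _ _ _ _ _ (split _ _ _ _ _
    (split _ _ _ _ _ (split _ _ _ _ _ (split _ _ _ _ _ (split _ _ _ _ _ (split _ _ _ _ _ p1 p2)
    p3) p4) p5) p6) p7) p8) p9) p10) p11) p12) p13) p14) p15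
  refine total.trans ?_
  simp only [Par.s1, Par.s2, Par.s3, Par.s4, Par.s5, Par.s6, Par.s7, Par.s8, Par.s9, Par.s10,
    Par.s11, Par.s12, Par.s13, Par.s14, Par.ell]
  have hne : ε ≠ 0 := h0.ne'
  have hm := hS.mass
  have hMm := P.hMm
  have e : P.M / ε ^ 2 * (ε / 2 - 0) + P.M / ε ^ 2 * (ε / 2 + ε ^ 3 - ε / 2)
      + 1 * (3 * ε / 2 + ε ^ 3 - (ε / 2 + ε ^ 3))
      + P.m / ε ^ 2 * (3 * ε / 2 + 2 * ε ^ 3 - (3 * ε / 2 + ε ^ 3))
      + P.m / ε ^ 2 * (5 * ε / 2 + 2 * ε ^ 3 - (3 * ε / 2 + 2 * ε ^ 3))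
      + P.m / ε ^ 2 * (5 * ε / 2 + 3 * ε ^ 3 - (5 * ε / 2 + 2 * ε ^ 3))
      + P.c * ε ^ 2 * (7 * ε / 2 + 3 * ε ^ 3 - (5 * ε / 2 + 3 * ε ^ 3))
      + ε * (7 * ε / 2 + 4 * ε ^ 3 - (7 * ε / 2 + 3 * ε ^ 3))
      + ε * (P.τ + 7 * ε / 2 + 4 * ε ^ 3 - (7 * ε / 2 + 4 * ε ^ 3))
      + 1 / ε * (P.τ + 7 * ε / 2 + 5 * ε ^ 3 - (P.τ + 7 * ε / 2 + 4 * ε ^ 3))
      + 1 / ε * (P.τ + 9 * ε / 2 + 5 * ε ^ 3 - (P.τ + 7 * ε / 2 + 5 * ε ^ 3))
      + 1 / ε * (P.τ + 9 * ε / 2 + 6 * ε ^ 3 - (P.τ + 9 * ε / 2 + 5 * ε ^ 3))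
      + P.a * ε * (P.τ + 11 * ε / 2 + 6 * ε ^ 3 - (P.τ + 9 * ε / 2 + 6 * ε ^ 3))
      + P.M / ε ^ 2 * (P.τ + 11 * ε / 2 + 7 * ε ^ 3 - (P.τ + 11 * ε / 2 + 6 * ε ^ 3))
      + P.M / ε ^ 2 * (P.τ + 6 * ε + 7 * ε ^ 3 - (P.τ + 11 * ε / 2 + 7 * ε ^ 3))
      = (P.M + P.m) / ε + 1 + (2 * (P.M + P.m) + 1 + P.τ) * ε + 2 * ε ^ 2 + P.a * ε ^ 2
        + P.c * ε ^ 3 + ε ^ 4 := by
    field_simp
    ring
  rw [e, hMm]
  linarith

/-- bound of the masses near the two lumps for functions vanishing at `0` -/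
lemma near_mass (hS : Small P ε) (hR : P.IsRing ε h) {w : ℝ → ℝ} (hw : Lip w 0 (P.ell ε))
    (w0 : w 0 = 0) (wl : w (P.ell ε) = 0) :
    Sm h w 0 (P.s4 ε) ≤ 5 * ε ^ 2 * En h w 0 (P.ell ε) ∧
    Sm h w (P.s14 ε) (P.ell ε) ≤ ε ^ 2 * En h w 0 (P.ell ε) := by
  have hc : Continuous h := hR.smooth.continuous
  have h0 := hS.pos
  have hb := bp P hS.pos
  obtain ⟨b1, b2, b3, b4, b5, b6, b7, b8, b9, b10, b11, b12, b13, b14, b15⟩ := hb
  set E := En h w 0 (P.ell ε) with hE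
  have hE0 : 0 ≤ E := en_nonneg (by linarith) hR.pos
  have hwc : ContinuousOn (fun r => h r * (w r) ^ 2) (Icc 0 (P.ell ε)) :=
    hc.continuousOn.mul ((lip_cont hw).pow 2)
  have e2 : 0 < ε ^ 2 := by positivity
  have hMe : 0 < P.M / ε ^ 2 := div_pos P.hM e2
  have hme : 0 < P.m / ε ^ 2 := div_pos P.hm e2
  have ptH : ∀ s ∈ Icc 0 (P.s1 ε), h s * (w s) ^ 2 ≤ ε / 2 * E := by
    intro s hs
    have := cs' hc hR.pos (le_refl 0) hs.1 (by linarith [hs.2]) hMe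
      (fun r hr => (hR.hH r ⟨hr.1, hr.2.trans hs.2⟩).ge) hw
    rw [w0, sub_zero, sub_zero] at this
    rw [hR.hH s hs, mul_comm]
    refine this.trans ?_
    have : s ≤ ε / 2 := hs.2
    gcongr
  have pt4 : ∀ s ∈ Icc 0 (P.s4 ε), (w s) ^ 2 ≤ 2 * ε * E := by
    intro s hs
    have := cs' hc hR.pos (le_refl 0) hs.1 (by linarith [hs.2]) one_pos
      (fun r hr => low04 hS hR r ⟨hr.1, hr.2.trans hs.2⟩) hw
    rw [w0, sub_zero, sub_zero, mul_one] at this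
    refine this.trans ?_
    have : s ≤ 2 * ε := hs.2.trans (s4_le hS)
    gcongr
  have m0 : (0:ℝ) ∈ Icc 0 (P.ell ε) := ⟨le_rfl, by linarith⟩
  have m1 : P.s1 ε ∈ Icc 0 (P.ell ε) := ⟨by linarith, by linarith⟩
  have m2 : P.s2 ε ∈ Icc 0 (P.ell ε) := ⟨by linarith, by linarith⟩
  have m3 : P.s3 ε ∈ Icc 0 (P.ell ε) := ⟨by linarith, by linarith⟩
  have m4 : P.s4 ε ∈ Icc 0 (P.ell ε) := ⟨by linarith, by linarith⟩
  have m14 : P.s14 ε ∈ Icc 0 (P.ell ε) := ⟨by linarith, by linarith⟩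
  have ml : P.ell ε ∈ Icc 0 (P.ell ε) := ⟨by linarith, by linarith⟩
  have i1 := int_le b1.le (co_int hwc m0 m1) ptH
  have i2 := int_le (B := P.M / ε ^ 2 * (2 * ε * E)) b2.le (co_int hwc m1 m2) (by
    intro r hr
    have a1 := (hR.hJ1 r hr).2
    have a2 := pt4 r ⟨by linarith [hr.1], by linarith [hr.2]⟩
    exact mul_le_mul a1 a2 (sq_nonneg _) hMe.le)
  have i3 := int_le (B := 2 * ε * E) b3.le (co_int hwc m2 m3) (by
    intro r hr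
    rw [hR.hN1 r hr, one_mul]
    exact pt4 r ⟨by linarith [hr.1], by linarith [hr.2]⟩)
  have i4 := int_le (B := P.m / ε ^ 2 * (2 * ε * E)) b4.le (co_int hwc m3 m4) (by
    intro r hr
    have a1 := (hR.hJ2 r hr).2
    have a2 := pt4 r ⟨by linarith [hr.1], by linarith [hr.2]⟩
    exact mul_le_mul a1 a2 (sq_nonneg _) hme.le)
  have ptH' : ∀ s ∈ Icc (P.s14 ε) (P.ell ε), h s * (w s) ^ 2 ≤ ε / 2 * E := by
    intro s hs
    have := cs' hc hR.pos (by linarith [hs.1]) hs.2 (le_refl _) hMe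
      (fun r hr => (hR.hH' r ⟨hs.1.trans hr.1, hr.2⟩).ge) hw
    rw [wl, zero_sub, neg_sq] at this
    rw [hR.hH' s hs, mul_comm]
    refine this.trans ?_
    have : P.ell ε - s ≤ ε / 2 := by
      have := hs.1
      simp only [Par.s14, Par.ell] at this ⊢
      linarith
    gcongr
  have i15 := int_le b15.le (co_int hwc m14 ml) ptH'
  constructor
  · have : Sm h w 0 (P.s4 ε) = (∫ r in (0:ℝ)..(P.s1 ε), h r * w r ^ 2)
        + (∫ r in (P.s1 ε)..(P.s2 ε), h r * w r ^ 2)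
        + (∫ r in (P.s2 ε)..(P.s3 ε), h r * w r ^ 2)
        + (∫ r in (P.s3 ε)..(P.s4 ε), h r * w r ^ 2) := by
      rw [Sm, int_split hwc m0 m3 m4, int_split hwc m0 m2 m3, int_split hwc m0 m1 m2]
    rw [this]
    have hMm := P.hMm
    have hM := P.hM
    have hm := P.hm
    have f1 : ε / 2 * E * (P.s1 ε - 0) = ε ^ 2 / 4 * E := by simp only [Par.s1]; ring
    have f2 : P.M / ε ^ 2 * (2 * ε * E) * (P.s2 ε - P.s1 ε) = 2 * P.M * ε ^ 2 * E := by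
      simp only [Par.s1, Par.s2]; field_simp; ring
    have f3 : 2 * ε * E * (P.s3 ε - P.s2 ε) = 2 * ε ^ 2 * E := by
      simp only [Par.s3, Par.s2]; ring
    have f4 : P.m / ε ^ 2 * (2 * ε * E) * (P.s4 ε - P.s3 ε) = 2 * P.m * ε ^ 2 * E := by
      simp only [Par.s3, Par.s4]; field_simp; ring
    rw [f1] at i1
    rw [f2] at i2
    rw [f3] at i3
    rw [f4] at i4
    have : 2 * P.M * ε ^ 2 * E + 2 * P.m * ε ^ 2 * E = 2 * ε ^ 2 * E := by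
      linear_combination (2 * ε ^ 2 * E) * hMm
    have hh : 0 ≤ ε ^ 2 * E := by positivity
    linarith
  · have f1 : ε / 2 * E * (P.ell ε - P.s14 ε) = ε ^ 2 / 4 * E := by
      simp only [Par.s14, Par.ell]; ring
    rw [f1] at i15
    have hh : 0 ≤ ε ^ 2 * E := by positivity
    have : Sm h w (P.s14 ε) (P.ell ε) ≤ ε ^ 2 / 4 * E := i15
    linarith

/-- oscillation on `[s4, s6]` -/
lemma osc46 (hS : Small P ε) (hR : P.IsRing ε h) {w : ℝ → ℝ} (hw : Lip w 0 (P.ell ε)) :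
    ∫ r in (P.s4 ε)..(P.s6 ε), h r * (w r - w (P.s4 ε)) ^ 2
      ≤ (3 + 2 / P.c) * ε ^ 2 * En h w 0 (P.ell ε) := by
  have hc : Continuous h := hR.smooth.continuous
  have h0 := hS.pos
  have hb := bp P hS.pos
  obtain ⟨b1, b2, b3, b4, b5, b6, b7, b8, b9, b10, b11, b12, b13, b14, b15⟩ := hb
  set E := En h w 0 (P.ell ε) with hE
  have hE0 : 0 ≤ E := en_nonneg (by linarith) hR.pos
  set y := w (P.s4 ε) with hy
  have hwc : ContinuousOn (fun r => h r * (w r - y) ^ 2) (Icc 0 (P.ell ε)) :=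
    hc.continuousOn.mul (((lip_cont hw).sub continuousOn_const).pow 2)
  have e2 : 0 < ε ^ 2 := by positivity
  have hme : 0 < P.m / ε ^ 2 := div_pos P.hm e2
  have hcc := P.hc
  have hce : 0 < P.c * ε ^ 2 := by positivity
  have ptL : ∀ s ∈ Icc (P.s4 ε) (P.s5 ε), h s * (w s - y) ^ 2 ≤ ε * E := by
    intro s hs
    have := cs' hc hR.pos (by linarith) hs.1 (by linarith [hs.2]) hme
      (fun r hr => (hR.hL r ⟨hr.1, hr.2.trans hs.2⟩).ge) hw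
    rw [hR.hL s hs, mul_comm]
    refine this.trans ?_
    have : s - P.s4 ε ≤ ε := by
      have := hs.2
      simp only [Par.s4, Par.s5] at this ⊢
      linarith
    gcongr
  have m4 : P.s4 ε ∈ Icc 0 (P.ell ε) := ⟨by linarith, by linarith⟩
  have m5 : P.s5 ε ∈ Icc 0 (P.ell ε) := ⟨by linarith, by linarith⟩
  have m6 : P.s6 ε ∈ Icc 0 (P.ell ε) := ⟨by linarith, by linarith⟩
  have ptJ : ∀ s ∈ Icc (P.s5 ε) (P.s6 ε), (w s - y) ^ 2 ≤ (2 + 2 / P.c) * ε * E := by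
    intro s hs
    have q1 := ptL (P.s5 ε) ⟨by linarith, le_rfl⟩
    rw [hR.hL (P.s5 ε) ⟨by linarith, le_rfl⟩] at q1
    have q1' : (w (P.s5 ε) - y) ^ 2 ≤ ε * E := by
      have : (w (P.s5 ε) - y) ^ 2 ≤ P.m / ε ^ 2 * (w (P.s5 ε) - y) ^ 2 :=
        le_mul_of_one_le_left (sq_nonneg _) (one_le_div hS).2
      linarith
    have q2 := cs' hc hR.pos (by linarith) hs.1 (by linarith [hs.2]) hce
      (fun r hr => (hR.hJ3 r ⟨hr.1, hr.2.trans hs.2⟩).1) hw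
    have : s - P.s5 ε ≤ ε ^ 3 := by
      have := hs.2
      simp only [Par.s6, Par.s5] at this ⊢
      linarith
    have q3 : (w s - w (P.s5 ε)) ^ 2 * (P.c * ε ^ 2) ≤ ε ^ 3 * E := q2.trans (by gcongr)
    have q4 : (w s - w (P.s5 ε)) ^ 2 ≤ 1 / P.c * ε * E := by
      have : ε ^ 3 * E = (1 / P.c * ε * E) * (P.c * ε ^ 2) := by field_simp
      rw [this] at q3
      exact le_of_mul_le_mul_right q3 hce
    have q5 : (w s - y) ^ 2 ≤ 2 * (w s - w (P.s5 ε)) ^ 2 + 2 * (w (P.s5 ε) - y) ^ 2 := by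
      nlinarith [sq_nonneg ((w s - w (P.s5 ε)) - (w (P.s5 ε) - y))]
    calc (w s - y) ^ 2 ≤ 2 * (w s - w (P.s5 ε)) ^ 2 + 2 * (w (P.s5 ε) - y) ^ 2 := q5
      _ ≤ 2 * (1 / P.c * ε * E) + 2 * (ε * E) := by gcongr
      _ = (2 + 2 / P.c) * ε * E := by ring
  have i1 := int_le b5.le (co_int hwc m4 m5) ptL
  have i2 := int_le (B := P.m / ε ^ 2 * ((2 + 2 / P.c) * ε * E)) b6.le (co_int hwc m5 m6) (by
    intro r hr
    exact mul_le_mul (hR.hJ3 r hr).2 (ptJ r hr) (sq_nonneg _) hme.le)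
  rw [int_split hwc m4 m5 m6]
  have f1 : ε * E * (P.s5 ε - P.s4 ε) = ε ^ 2 * E := by simp only [Par.s4, Par.s5]; ring
  have f2 : P.m / ε ^ 2 * ((2 + 2 / P.c) * ε * E) * (P.s6 ε - P.s5 ε)
      = P.m * ((2 + 2 / P.c) * (ε ^ 2 * E)) := by
    simp only [Par.s5, Par.s6]; field_simp; ring
  rw [f1] at i1
  rw [f2] at i2
  have hm1 : P.m ≤ 1 := by linarith [P.hM, P.hMm]
  have hh : 0 ≤ (2 + 2 / P.c) * (ε ^ 2 * E) := by positivity
  have : P.m * ((2 + 2 / P.c) * (ε ^ 2 * E)) ≤ (2 + 2 / P.c) * (ε ^ 2 * E) :=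
    mul_le_of_le_one_left hh hm1
  calc _ ≤ ε ^ 2 * E + (2 + 2 / P.c) * (ε ^ 2 * E) := by linarith
    _ = (3 + 2 / P.c) * ε ^ 2 * E := by ring

end

end Pool.Agent.Lib.MP_e46711_an.H76
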