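import Pool.Agent.Lib.MP_e46711_an.H82.Basic

/-!
Tools for the one-dimensional ring (helper76): integrability, Cauchy-Schwarz on an interval with a
lower bound of the weight, break points, mass bounds.
-/

open Set Filter Topology MeasureTheory
open scoped ContDiff

namespace Pool.Agent.Lib.MP_e46711_an.H76

lemma lip_mono {u : ℝ → ℝ} {s t s' t' : ℝ} (h : Lip u s t) (h1 : s ≤ s') (h2 : t' ≤ t) :
    Lip u s' t' := by
  obtain ⟨K, hK⟩ := h
  exact ⟨K, hK.mono (Icc_subset_Icc h1 h2)⟩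

lemma lip_cont {u : ℝ → ℝ} {s t : ℝ} (h : Lip u s t) : ContinuousOn u (Icc s t) := by
  obtain ⟨K, hK⟩ := h
  exact hK.continuousOn

lemma lip_ac {u : ℝ → ℝ} {s t : ℝ} (hst : s ≤ t) (h : Lip u s t) :
    AbsolutelyContinuousOnInterval u s t := by
  obtain ⟨K, hK⟩ := h
  exact (by rw [uIcc_of_le hst]; exact hK :
    LipschitzOnWith K u (uIcc s t)).absolutelyContinuousOnInterval

lemma energy_int {h u : ℝ → ℝ} (hh : Continuous h) {s t : ℝ} (hst : s ≤ t) (hu : Lip u s t) :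
    IntervalIntegrable (fun r => h r * (deriv u r) ^ 2) volume s t := by
  obtain ⟨K, hK⟩ := hu
  rw [intervalIntegrable_iff_integrableOn_Ioo_of_le hst]
  obtain ⟨B, hB⟩ := (isCompact_Icc (a := s) (b := t)).exists_bound_of_continuousOn hh.continuousOn
  refine Measure.integrableOn_of_bounded (M := B * (K:ℝ) ^ 2) measure_Ioo_lt_top.ne ?_ ?_
  · exact (hh.measurable.mul ((measurable_deriv u).pow_const 2)).aestronglyMeasurable
  · rw [ae_restrict_iff' measurableSet_Ioo]
    filter_upwards with x hx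
    have h1 := hB x (Ioo_subset_Icc_self hx)
    have h2 : ‖deriv u x‖ ≤ K := norm_deriv_le_of_lipschitzOn (Icc_mem_nhds hx.1 hx.2) hK
    rw [norm_mul, norm_pow]
    have : 0 ≤ B := (norm_nonneg _).trans h1
    gcongr

/-- Cauchy-Schwarz with a lower bound for the weight -/
lemma cs {h u : ℝ → ℝ} (hh : Continuous h) {s t κ : ℝ} (hst : s ≤ t) (hκ : 0 < κ)
    (hlow : ∀ r ∈ Icc s t, κ ≤ h r) (hu : Lip u s t) :
    (u t - u s) ^ 2 * κ ≤ (t - s) * En h u s t := by
  rcases hst.eq_or_lt with rfl | hlt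
  · simp
  have hAC := lip_ac hst hu
  have hD : ∫ r in s..t, deriv u r = u t - u s := hAC.integral_deriv_eq_sub
  set D := u t - u s with hDdef
  have hi : IntervalIntegrable (deriv u) volume s t := hAC.intervalIntegrable_deriv
  have hts : 0 < t - s := by linarith
  set l := κ * D / (t - s) with hl
  have hmono : ∫ r in s..t, (2 * l * deriv u r - l ^ 2 / κ) ≤ ∫ r in s..t, h r * (deriv u r) ^ 2 := by
    apply intervalIntegral.integral_mono_on hst
    · exact (hi.const_mul _).sub intervalIntegrable_const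
    · exact energy_int hh hst hu
    · intro r hr
      have h0 := hlow r hr
      have h1 : κ * (deriv u r) ^ 2 ≤ h r * (deriv u r) ^ 2 := by gcongr
      have h2 : κ * (deriv u r) ^ 2 - (2 * l * deriv u r - l ^ 2 / κ)
          = κ * (deriv u r - l / κ) ^ 2 := by
        field_simp; ring
      have h3 : 0 ≤ κ * (deriv u r - l / κ) ^ 2 := by positivity
      linarith
  rw [intervalIntegral.integral_sub (hi.const_mul _) intervalIntegrable_const,
    intervalIntegral.integral_const_mul, hD, intervalIntegral.integral_const, smul_eq_mul] at hmono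
  have e1 : 2 * l * D - (t - s) * (l ^ 2 / κ) = κ * D ^ 2 / (t - s) := by
    rw [hl]; field_simp; ring
  rw [e1] at hmono
  rw [div_le_iff₀ hts] at hmono
  simp only [En]
  linarith

/-- integrals over subintervals -/
lemma co_int {f : ℝ → ℝ} {A B s t : ℝ} (hf : ContinuousOn f (Icc A B)) (hs : s ∈ Icc A B)
    (ht : t ∈ Icc A B) : IntervalIntegrable f volume s t :=
  (hf.mono (uIcc_subset_Icc hs ht)).intervalIntegrable

lemma int_le {f : ℝ → ℝ} {s t B : ℝ} (hst : s ≤ t) (hf : IntervalIntegrable f volume s t)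
    (hB : ∀ r ∈ Icc s t, f r ≤ B) : ∫ r in s..t, f r ≤ B * (t - s) := by
  have := intervalIntegral.integral_mono_on hst hf intervalIntegrable_const hB
  rw [intervalIntegral.integral_const, smul_eq_mul] at this
  linarith

lemma le_int {f : ℝ → ℝ} {s t B : ℝ} (hst : s ≤ t) (hf : IntervalIntegrable f volume s t)
    (hB : ∀ r ∈ Icc s t, B ≤ f r) : B * (t - s) ≤ ∫ r in s..t, f r := by
  have := intervalIntegral.integral_mono_on hst intervalIntegrable_const hf hB
  rw [intervalIntegral.integral_const, smul_eq_mul] at this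
  linarith

lemma int_split {f : ℝ → ℝ} {A B s t r : ℝ} (hf : ContinuousOn f (Icc A B)) (hs : s ∈ Icc A B)
    (ht : t ∈ Icc A B) (hr : r ∈ Icc A B) :
    ∫ x in s..r, f x = (∫ x in s..t, f x) + ∫ x in t..r, f x :=
  (intervalIntegral.integral_add_adjacent_intervals (co_int hf hs ht) (co_int hf ht hr)).symm

lemma int_nonneg {f : ℝ → ℝ} {s t : ℝ} (hst : s ≤ t) (hf : ∀ r ∈ Icc s t, 0 ≤ f r) :
    0 ≤ ∫ r in s..t, f r := intervalIntegral.integral_nonneg hst hf

lemma en_nonneg {h u : ℝ → ℝ} {s t : ℝ} (hst : s ≤ t) (hh : ∀ r, 0 < h r) : 0 ≤ En h u s t :=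
  intervalIntegral.integral_nonneg hst fun r _ => mul_nonneg (hh r).le (sq_nonneg _)

lemma en_split {h u : ℝ → ℝ} (hh : Continuous h) {A B s t r : ℝ} (hu : Lip u A B) (h1 : A ≤ s)
    (h2 : s ≤ t) (h3 : t ≤ r) (h4 : r ≤ B) : En h u s r = En h u s t + En h u t r :=
  (intervalIntegral.integral_add_adjacent_intervals
    (energy_int hh h2 (lip_mono hu h1 (h3.trans h4)))
    (energy_int hh h3 (lip_mono hu (h1.trans h2) h4))).symm

lemma en_mono {h u : ℝ → ℝ} (hh : Continuous h) (hpos : ∀ r, 0 < h r) {A B s t : ℝ}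
    (hu : Lip u A B) (h1 : A ≤ s) (h2 : s ≤ t) (h3 : t ≤ B) : En h u s t ≤ En h u A B := by
  have e1 := en_split hh hu le_rfl h1 (h2.trans h3) le_rfl
  have e2 := en_split hh hu h1 h2 h3 le_rfl
  have := en_nonneg (u := u) h1 hpos
  have := en_nonneg (u := u) h3 hpos
  linarith

/-- Cauchy-Schwarz inside a larger interval -/
lemma cs' {h u : ℝ → ℝ} (hh : Continuous h) (hpos : ∀ r, 0 < h r) {A B s t κ : ℝ} (h1 : A ≤ s)
    (hst : s ≤ t) (h3 : t ≤ B) (hκ : 0 < κ) (hlow : ∀ r ∈ Icc s t, κ ≤ h r) (hu : Lip u A B) :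
    (u t - u s) ^ 2 * κ ≤ (t - s) * En h u A B := by
  have := cs hh hst hκ hlow (lip_mono hu h1 h3)
  have h5 := en_mono hh hpos hu h1 hst h3
  have : (t - s) * En h u s t ≤ (t - s) * En h u A B := by
    apply mul_le_mul_of_nonneg_left h5; linarith
  linarith

/-- order of the break points -/
lemma bp (P : Par) {ε : ℝ} (hε : 0 < ε) :
    0 < P.s1 ε ∧ P.s1 ε < P.s2 ε ∧ P.s2 ε < P.s3 ε ∧ P.s3 ε < P.s4 ε ∧ P.s4 ε < P.s5 ε ∧
    P.s5 ε < P.s6 ε ∧ P.s6 ε < P.s7 ε ∧ P.s7 ε < P.s8 ε ∧ P.s8 ε < P.s9 ε ∧ P.s9 ε < P.s10 ε ∧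
    P.s10 ε < P.s11 ε ∧ P.s11 ε < P.s12 ε ∧ P.s12 ε < P.s13 ε ∧ P.s13 ε < P.s14 ε ∧
    P.s14 ε < P.ell ε := by
  have h3 : 0 < ε ^ 3 := by positivity
  have ht := P.hτ
  simp only [Par.s1, Par.s2, Par.s3, Par.s4, Par.s5, Par.s6, Par.s7, Par.s8, Par.s9, Par.s10,
    Par.s11, Par.s12, Par.s13, Par.s14, Par.ell]
  refine ⟨?_, ?_, ?_, ?_, ?_, ?_, ?_, ?_, ?_, ?_, ?_, ?_, ?_, ?_, ?_⟩ <;> linarith

end Pool.Agent.Lib.MP_e46711_an.H76
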